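import Pool.Agent.W_eea520p_h56.Main

/-!
# The square of the absolute value of an irreducible character of `GSpin_{2n+1}` (MP_eea520_nt)
-/

set_option autoImplicit false

namespace Pool.Agent.EEAP

open Filter Topology Pool.Agent.EEA520 Pool.Agent.EEAN Pool.Agent.EEAG1

variable {n : ℕ}

theorem ju_shift (f : R n) (v : Wt n) :
    (f * mon v).coeff = f.coeff.mapDomain fun w => w + v := by
  classical
  induction f using AddMonoidAlgebra.induction_linear with
  | zero => rw [zero_mul, AddMonoidAlgebra.coeff_zero, Finsupp.mapDomain_zero]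
  | add x y hx hy =>
    rw [add_mul, AddMonoidAlgebra.coeff_add, hx, hy, AddMonoidAlgebra.coeff_add,
      Finsupp.mapDomain_add]
  | single w z =>
    rw [mon, AddMonoidAlgebra.single_mul_single, AddMonoidAlgebra.coeff_single,
      AddMonoidAlgebra.coeff_single, Finsupp.mapDomain_single, mul_one]

theorem ju_shift_apply (f : R n) (u v : Wt n) : (f * mon v).coeff u = f.coeff (u - v) := by
  rw [ju_shift]
  have h1 := Finsupp.mapDomain_apply (add_left_injective v) f.coeff (u - v)
  rw [sub_add_cancel] at h1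
  exact h1

/-- The first coordinates of the weights of an irreducible representation. -/
theorem ju_fst {k : ℤ} {μ : Fin n → ℤ} {m : Wt n →₀ ℤ} (h : IsIrr k μ m) {w : Wt n}
    (hw : m w ≠ 0) : w.1 = k := by
  classical
  obtain ⟨h1, h2, h3⟩ := h
  have hD : (alt 1 fun j : Fin n => (n : ℤ) - j).coeff
      ((1, fun j : Fin n => (n : ℤ) - j) : Wt n) = 1 := by
    refine (top_alt _ _ (fun i j hij => ?_) fun i => ?_).1
    · have h4 : (i : ℕ) < (j : ℕ) := hij
      show (n : ℤ) - (j : ℕ) < (n : ℤ) - (i : ℕ)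
      omega
    · have := i.2
      omega
  have hw' : (AddMonoidAlgebra.ofCoeff m : R n).coeff w ≠ 0 := hw
  have k1 := B3a_top (AddMonoidHom.fst ℤ (Fin n → ℤ)) (f := AddMonoidAlgebra.ofCoeff m)
    (g := alt 1 fun j : Fin n => (n : ℤ) - j) (c := k + 1) (by
      intro u hu
      rw [h3] at hu
      obtain ⟨g, hg⟩ := B3a_alt hu
      rw [← hg]
      show k + 1 ≤ k + 1
      exact le_rfl) hw' (by rw [hD]; exact one_ne_zero)
  have k2 := B3a_top (-(AddMonoidHom.fst ℤ (Fin n → ℤ))) (f := AddMonoidAlgebra.ofCoeff m)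
    (g := alt 1 fun j : Fin n => (n : ℤ) - j) (c := -(k + 1)) (by
      intro u hu
      rw [h3] at hu
      obtain ⟨g, hg⟩ := B3a_alt hu
      rw [← hg]
      show -(k + 1) ≤ -(k + 1)
      exact le_rfl) hw' (by rw [hD]; exact one_ne_zero)
  have k3 : w.1 + 1 ≤ k + 1 := k1
  have k4 : -w.1 + -1 ≤ -(k + 1) := k2
  omega

theorem ju_coeff (f : R n) (K : ℤ) (M : Fin n → ℤ) (u : Wt n) :
    (f * alt K M).coeff u = ∑ g : WG n, sgn g * f.coeff (u - act g (K, M)) := by
  rw [alt_eq_sum, Finset.mul_sum, AddMonoidAlgebra.coeff_sum, Finsupp.finsetSum_apply]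
  refine Finset.sum_congr rfl fun g _ => ?_
  rw [mul_smul_comm, AddMonoidAlgebra.coeff_smul_apply, smul_eq_mul, ju_shift_apply]

theorem ju_sgn (g : WG n) : sgn g * sgn g = 1 := by
  unfold sgn
  rcases Int.units_eq_one_or (Equiv.Perm.sign g.1) with h | h <;>
    rcases neg_one_pow_eq_or ℤ g.2.card with h' | h' <;> rw [h, h'] <;> norm_num

theorem ju_avg {f : R n} (hf : IsCharacter f.coeff) (v v' : Wt n) (h : WG n) :
    ∑ g : WG n, sgn g * f.coeff (v' - act g v) =
      ∑ g : WG n, sgn h * sgn g * f.coeff (act h v' - act g v) := by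
  rw [← (B1a_mul_bijective h).sum_comp fun g => sgn h * sgn g * f.coeff (act h v' - act g v)]
  refine Finset.sum_congr rfl fun g _ => ?_
  rw [B1a_sgn_mul, B1a_act_mul, ← map_sub, hf.act]
  have h1 := ju_sgn h
  linear_combination (-(sgn g * f.coeff (v' - act g v))) * h1

theorem ju_card {f : R n} (hf : IsCharacter f.coeff) (v v' : Wt n) :
    (Fintype.card (WG n) : ℤ) * ∑ g : WG n, sgn g * f.coeff (v' - act g v) =
      ∑ h : WG n, ∑ g : WG n, sgn h * sgn g * f.coeff (act h v' - act g v) := by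
  have h1 : ∑ h : WG n, ∑ g : WG n, sgn h * sgn g * f.coeff (act h v' - act g v) =
      ∑ _h : WG n, ∑ g : WG n, sgn g * f.coeff (v' - act g v) :=
    Finset.sum_congr rfl fun h _ => (ju_avg hf v v' h).symm
  rw [h1, Finset.sum_const, Finset.card_univ, nsmul_eq_mul]

/-- Symmetry, for two characters which are dual to each other. -/
theorem ju_coef_dual {f F : R n} (hf : IsCharacter f.coeff) (hF : IsCharacter F.coeff)
    (hd : ∀ w, F.coeff (-w) = f.coeff w) (K K' : ℤ) (M M' : Fin n → ℤ) :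
    (F * alt K M).coeff (K', M') = (f * alt K' M').coeff (K, M) := by
  rw [ju_coeff, ju_coeff]
  have hc : (Fintype.card (WG n) : ℤ) ≠ 0 := by
    have h1 : 0 < Fintype.card (WG n) := Fintype.card_pos_iff.mpr ⟨(1, ∅)⟩
    exact_mod_cast h1.ne'
  refine mul_left_cancel₀ hc ?_
  rw [ju_card hF, ju_card hf, Finset.sum_comm]
  refine Finset.sum_congr rfl fun g _ => Finset.sum_congr rfl fun h _ => ?_
  rw [← hd, neg_sub]
  ring

theorem ju_nu (a : ℤ) : IsCharacter (mon ((2 * a, fun _ => a) : Wt n) : R n).coeff := by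
  classical
  have h0 : ∀ w : Wt n, (mon ((2 * a, fun _ => a) : Wt n) : R n).coeff w =
      if ((2 * a, fun _ => a) : Wt n) = w then 1 else 0 := by
    intro w
    rw [mon, AddMonoidAlgebra.coeff_single, Finsupp.single_apply]
  refine ⟨fun σ k μ => ?_, fun i k μ => ?_⟩
  · rw [h0, h0]
    refine if_congr ?_ rfl rfl
    constructor
    · intro h
      have h1 : 2 * a = k := congrArg Prod.fst h
      have h2 : (fun _ => a) = μ ∘ σ := congrArg Prod.snd h
      refine Prod.ext h1 (funext fun j => ?_)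
      have h3 := congrFun h2 (σ.symm j)
      simpa using h3
    · intro h
      have h1 : 2 * a = k := congrArg Prod.fst h
      have h2 : (fun _ => a) = μ := congrArg Prod.snd h
      refine Prod.ext h1 (funext fun j => ?_)
      exact congrFun h2 (σ j)
  · rw [h0, h0]
    refine if_congr ?_ rfl rfl
    constructor
    · intro h
      have h1 : 2 * a = k := congrArg Prod.fst h
      have h2 : (fun _ => a) = Function.update μ i (k - μ i) := congrArg Prod.snd h
      refine Prod.ext h1 (funext fun j => ?_)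
      have h3 := congrFun h2 j
      by_cases hj : j = i
      · subst hj
        rw [Function.update_self] at h3
        show a = μ j
        have h4 : a = k - μ j := h3
        omega
      · rw [Function.update_of_ne hj] at h3
        exact h3
    · intro h
      have h1 : 2 * a = k := congrArg Prod.fst h
      have h2 : (fun _ => a) = μ := congrArg Prod.snd h
      refine Prod.ext h1 (funext fun j => ?_)
      have h3 : a = μ j := congrFun h2 j
      have h4 : a = μ i := congrFun h2 i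
      show a = Function.update μ i (k - μ i) j
      by_cases hj : j = i
      · subst hj
        rw [Function.update_self]
        omega
      · rw [Function.update_of_ne hj]
        exact h3

/-- The dual of an irreducible representation. -/
noncomputable def duR (k : ℤ) (m : Wt n →₀ ℤ) : R n :=
  AddMonoidAlgebra.ofCoeff m * mon (2 * -k, fun _ => -k)

/-- The tensor product of an irreducible representation with its dual. -/
noncomputable def sqR (k : ℤ) (m : Wt n →₀ ℤ) : R n := AddMonoidAlgebra.ofCoeff m * duR k m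

theorem ju_dual {k : ℤ} {μ : Fin n → ℤ} {m : Wt n →₀ ℤ} (h : IsIrr k μ m) (w : Wt n) :
    (duR k m).coeff (-w) = (AddMonoidAlgebra.ofCoeff m : R n).coeff w := by
  classical
  set f : R n := AddMonoidAlgebra.ofCoeff m with hf
  have hch : IsCharacter f.coeff := h.isCharacter
  unfold duR
  rw [← hf, ju_shift_apply]
  by_cases hw : w.1 = k
  · have h1 : act (1, Finset.univ) w = -w - ((2 * -k, fun _ => -k) : Wt n) := by
      rw [act_apply]
      refine Prod.ext ?_ ?_
      · show w.1 = -w.1 - 2 * -k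
        omega
      · funext i
        show (if i ∈ (Finset.univ : Finset (Fin n)) then
          w.1 - w.2 ((1 : Equiv.Perm (Fin n)) i) else w.2 ((1 : Equiv.Perm (Fin n)) i)) =
            -w.2 i - -k
        rw [if_pos (Finset.mem_univ i), Equiv.Perm.one_apply]
        omega
    rw [← h1, hch.act]
  · have h1 : f.coeff w = 0 := by
      by_contra h2
      exact hw (ju_fst h h2)
    have h2 : f.coeff (-w - ((2 * -k, fun _ => -k) : Wt n)) = 0 := by
      by_contra h3
      have h4 := ju_fst h h3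
      have h5 : -w.1 - 2 * -k = k := h4
      omega
    rw [h1, h2]

theorem sqR_inv0 {k : ℤ} {μ : Fin n → ℤ} {m : Wt n →₀ ℤ} (h : IsIrr k μ m) : Inv0 (sqR k m) := by
  have hch : IsCharacter (AddMonoidAlgebra.ofCoeff m : R n).coeff := h.isCharacter
  refine ⟨isCharacter_mul hch (isCharacter_mul hch (ju_nu (-k))), fun w hw => ?_⟩
  obtain ⟨a, b, ha, hb, rfl⟩ := B3a_exists hw
  unfold duR at hb
  rw [ju_shift_apply] at hb
  have h1 : a.1 = k := ju_fst h ha
  have h2 : (b - ((2 * -k, fun _ => -k) : Wt n)).1 = k := ju_fst h hb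
  have h3 : b.1 - 2 * -k = k := h2
  show a.1 + b.1 = 0
  omega

/-- The multiplicity of the trivial representation is one. -/
theorem sqR_mult {k : ℤ} {μ : Fin n → ℤ} {m : Wt n →₀ ℤ} (h : IsIrr k μ m) :
    mult (sqR k m) 0 = 1 := by
  classical
  set f : R n := AddMonoidAlgebra.ofCoeff m with hf
  have hch : IsCharacter f.coeff := h.isCharacter
  have hFch : IsCharacter (duR k m).coeff := isCharacter_mul hch (ju_nu (-k))
  have h0 : shf (0 : Fin n → ℤ) = fun j : Fin n => (n : ℤ) - j := by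
    funext j
    show (0 : ℤ) + ((n : ℤ) - (j : ℕ)) = (n : ℤ) - (j : ℕ)
    rw [zero_add]
  have h3 : f * alt 1 (shf (0 : Fin n → ℤ)) = alt (k + 1) (shf μ) := by
    rw [h0]
    exact h.2.2
  unfold mult al sqR
  have e : f * duR k m * alt 1 (shf (0 : Fin n → ℤ)) = duR k m * alt (k + 1) (shf μ) := by
    rw [← h3]
    ring
  rw [← hf, e, ju_coef_dual hch hFch (ju_dual h), h3]
  have hM : StrictAnti (shf μ) := by
    intro i j hij
    have h1 := h.1 hij.le
    have h2 : (i : ℕ) < (j : ℕ) := hij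
    show μ j + ((n : ℤ) - (j : ℕ)) < μ i + ((n : ℤ) - (i : ℕ))
    omega
  have hK : ∀ i, k + 1 < 2 * shf μ i := by
    intro i
    have h1 := h.2.1 i
    have h2 := i.2
    show k + 1 < 2 * (μ i + ((n : ℤ) - (i : ℕ)))
    omega
  rw [alt_dom hM hK hM hK, if_pos rfl]

theorem ju_conj {π : GSys n} (hπ : Tempered π) (w : Wt n) (p : Pr) :
    (starRingEnd ℂ) ((π p).ev w : ℂ) = ((π p).ev (-w) : ℂ) := by
  rw [← Complex.inv_eq_conj (norm_ev hπ p w), ← Units.val_inv_eq_inv_val]
  congr 1
  unfold Torus.ev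
  simp only [Prod.fst_neg, Prod.snd_neg, Pi.neg_apply, zpow_neg, Finset.prod_inv_distrib, mul_inv]

theorem sqR_val {π : GSys n} (hπ : Tempered π) {k : ℤ} {μ : Fin n → ℤ} {m : Wt n →₀ ℤ}
    (h : IsIrr k μ m) (p : Pr) : vf π (sqR k m) p = ‖trc π m p‖ ^ 2 := by
  obtain ⟨φ, hφ⟩ := exists_evR (π p)
  have hφ' : ∀ f : R n, φ f = trc π f.coeff p := hφ
  have h1 : trc π (duR k m).coeff p = (starRingEnd ℂ) (trc π m p) := by
    symm
    unfold trc Finsupp.sum
    rw [map_sum]
    refine Finset.sum_equiv (Equiv.neg (Wt n)) (fun w => ?_) fun w _ => ?_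
    · rw [Finsupp.mem_support_iff, Finsupp.mem_support_iff, Equiv.neg_apply, ju_dual h]
    · rw [map_mul, ju_conj hπ, Equiv.neg_apply, ju_dual h, map_intCast]
  show (trc π (sqR k m).coeff p).re = _
  rw [← hφ', sqR, map_mul, hφ', hφ', h1]
  show (trc π m p * (starRingEnd ℂ) (trc π m p)).re = _
  rw [Complex.mul_conj, Complex.ofReal_re, Complex.normSq_eq_norm_sq]

/-- The highest weight of a representation with `V ⊗ V' = 1`. -/
theorem sqR_ne {k : ℤ} {μ : Fin n → ℤ} {m : Wt n →₀ ℤ} (h : IsIrr k μ m)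
    (hne : ¬ ∀ j, 2 * μ j = k) : sqR k m ≠ 1 := by
  classical
  intro h1
  refine hne ?_
  set f : R n := AddMonoidAlgebra.ofCoeff m with hf
  have hch : IsCharacter f.coeff := h.isCharacter
  have hM : StrictAnti (fun j : Fin n => μ j + ((n : ℤ) - j)) := by
    intro i j hij
    have h1 := h.1 hij.le
    have h2 : (i : ℕ) < (j : ℕ) := hij
    show μ j + ((n : ℤ) - (j : ℕ)) < μ i + ((n : ℤ) - (i : ℕ))
    omega
  have hK : ∀ i, k + 1 < 2 * (μ i + ((n : ℤ) - (i : ℕ))) := by
    intro i
    have h1 := h.2.1 i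
    have h2 := i.2
    omega
  have h2 : (f * alt 1 (fun j : Fin n => (n : ℤ) - j)).coeff
      ((k + 1, fun j : Fin n => μ j + ((n : ℤ) - j)) : Wt n) ≠ 0 := by
    rw [h.2.2, alt_dom hM hK hM hK, if_pos rfl]
    exact one_ne_zero
  obtain ⟨a, b, ha, hb, hab⟩ := B3a_exists h2
  obtain ⟨g, hg⟩ := B3a_alt hb
  have ha1 : a.1 = k := ju_fst h ha
  have hzero : ∀ φ : Wt n →+ ℤ, φ (act (1, Finset.univ) a) + φ (-a) ≤ 0 := by
    intro φ
    refine B3a_top φ (f := f) (g := duR k m) (c := 0) (fun u hu => ?_) ?_ ?_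
    · have h3 : f * duR k m = 1 := h1
      rw [h3, AddMonoidAlgebra.one_def, AddMonoidAlgebra.coeff_single] at hu
      have h4 : u = 0 := by
        by_contra h5
        exact hu (Finsupp.single_eq_of_ne h5)
      rw [h4, map_zero]
    · rw [hch.act]
      exact ha
    · rw [ju_dual h]
      exact ha
  have hmid : ∀ j, 2 * a.2 j = k := by
    intro j
    let φ : Wt n →+ ℤ := (Pi.evalAddMonoidHom (fun _ : Fin n => ℤ) j).comp
      (AddMonoidHom.snd ℤ (Fin n → ℤ))
    have h3 := hzero φ
    have h4 := hzero (-φ)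
    have e1 : φ (act (1, Finset.univ) a) = k - a.2 j := by
      show (if j ∈ (Finset.univ : Finset (Fin n)) then
        a.1 - a.2 ((1 : Equiv.Perm (Fin n)) j) else a.2 ((1 : Equiv.Perm (Fin n)) j)) = _
      rw [if_pos (Finset.mem_univ j), Equiv.Perm.one_apply, ha1]
    have e2 : φ (-a) = -a.2 j := rfl
    have h5 : -φ (act (1, Finset.univ) a) + -φ (-a) ≤ 0 := h4
    rw [e1, e2] at h3 h5
    omega
  have hb2 : ∀ j, b.2 j = μ j + ((n : ℤ) - (j : ℕ)) - a.2 j := by
    intro j
    have h3 : a.2 j + b.2 j = μ j + ((n : ℤ) - (j : ℕ)) := congrFun (congrArg Prod.snd hab) j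
    omega
  have hbl : ∀ j : Fin n, (n : ℤ) - (j : ℕ) ≤ b.2 j := by
    intro j
    have h3 := hb2 j
    have h4 := hmid j
    have h5 := h.2.1 j
    omega
  have hbu : ∀ j, b.2 j ≤ (n : ℤ) - ((g.1 j : Fin n) : ℕ) := by
    intro j
    have h3 : b.2 j = if j ∈ g.2 then 1 - ((n : ℤ) - ((g.1 j : Fin n) : ℕ)) else
        (n : ℤ) - ((g.1 j : Fin n) : ℕ) := by
      rw [← hg]
      rfl
    have h4 := (g.1 j).2
    rw [h3]
    split_ifs
    · omega
    · exact le_rfl
  have hsum : ∑ j, ((n : ℤ) - ((g.1 j : Fin n) : ℕ)) = ∑ j : Fin n, ((n : ℤ) - (j : ℕ)) :=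
    Equiv.sum_comp g.1 fun j : Fin n => (n : ℤ) - (j : ℕ)
  have h3 : ∑ j : Fin n, ((n : ℤ) - (j : ℕ)) = ∑ j, b.2 j :=
    le_antisymm (Finset.sum_le_sum fun j _ => hbl j)
      ((Finset.sum_le_sum fun j _ => hbu j).trans hsum.le)
  have h4 := (Finset.sum_eq_sum_iff_of_le fun j _ => hbl j).1 h3
  intro j
  have h5 := h4 j (Finset.mem_univ j)
  have h6 := hb2 j
  have h7 := hmid j
  omega

/-- The representations of dimension one. -/
theorem irr_dim_one {π : GSys n} (hπ : Tempered π) {k : ℤ} {μ : Fin n → ℤ} {m : Wt n →₀ ℤ}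
    (h : IsIrr k μ m) (h1 : ∀ j, 2 * μ j = k) (p : Pr) : ‖trc π m p‖ = 1 := by
  classical
  have hact : ∀ g : WG n, act g ((k, μ) : Wt n) = (k, μ) := by
    intro g
    rw [act_apply]
    refine Prod.ext rfl (funext fun i => ?_)
    have h2 := h1 i
    have h3 := h1 (g.1 i)
    show (if i ∈ g.2 then k - μ (g.1 i) else μ (g.1 i)) = μ i
    split_ifs <;> omega
  have h2 : IsIrr k μ (Finsupp.single (k, μ) 1) := by
    refine ⟨h.1, h.2.1, ?_⟩
    have e : (AddMonoidAlgebra.ofCoeff (Finsupp.single (k, μ) 1) : R n) = mon (k, μ) := rfl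
    rw [e, alt_eq_sum, alt_eq_sum, Finset.mul_sum]
    refine Finset.sum_congr rfl fun g _ => ?_
    rw [mul_smul_comm]
    congr 1
    have h4 : ((k + 1, fun j : Fin n => μ j + ((n : ℤ) - j)) : Wt n) =
        (k, μ) + (1, fun j : Fin n => (n : ℤ) - j) := rfl
    rw [h4, map_add, hact, mon, mon, mon, AddMonoidAlgebra.single_mul_single, one_mul]
  rw [h.unique h2]
  unfold trc
  rw [Finsupp.sum_single_index (by simp), Int.cast_one, one_mul]
  exact norm_ev hπ p _

theorem dec_ne {F : R n} (hF : Inv0 F) (h1 : mult F 0 = 1) (hne : F ≠ 1) :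
    ∃ κ : Dm n, κ ≠ dz n ∧ dec F κ ≠ 0 := by
  classical
  by_contra h
  push Not at h
  refine hne ?_
  have h2 : dec F = Finsupp.single (dz n) 1 := by
    ext κ
    by_cases hκ : κ = dz n
    · rw [hκ, Finsupp.single_eq_same, dec_apply hF]
      exact h1
    · rw [h κ hκ, Finsupp.single_eq_of_ne hκ]
  rw [dec_sum hF, h2, Finsupp.sum_single_index (by rw [zero_smul]), one_smul,
    chi_zero (dz n) rfl]

theorem mult_sq_eq {F : R n} (hF : Inv0 F) : mult (F * F) 0 = (dec F).sum fun _ a => a * a := by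
  classical
  have h1 : ∀ a b : Dm n →₀ ℤ, mult ((a.sum fun μ x => x • chi μ) * b.sum fun ν y => y • chi ν) 0 =
      a.sum fun μ x => b.sum fun ν y => x * y * (if μ = ν then 1 else 0) := by
    intro a b
    unfold Finsupp.sum
    rw [Finset.sum_mul_sum, mult_sum]
    refine Finset.sum_congr rfl fun μ _ => ?_
    rw [mult_sum]
    refine Finset.sum_congr rfl fun ν _ => ?_
    rw [smul_mul_smul_comm, mult_smul]
    congr 1
    exact orth μ ν (dz n) rfl
  have h2 : mult (F * F) 0 = mult (((dec F).sum fun μ x => x • chi μ) *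
      (dec F).sum fun ν y => y • chi ν) 0 := by rw [← dec_sum hF]
  rw [h2, h1]
  unfold Finsupp.sum
  refine Finset.sum_congr rfl fun μ hμ => ?_
  show ∑ ν ∈ (dec F).support, dec F μ * dec F ν * (if μ = ν then 1 else 0) = dec F μ * dec F μ
  rw [Finset.sum_eq_single μ]
  · rw [if_pos rfl, mul_one]
  · intro ν _ hν
    rw [if_neg (Ne.symm hν), mul_zero]
  · intro h3
    exact absurd hμ h3

theorem two_le_mult {F : R n} (hF : Inv0 F) (h1 : mult F 0 = 1) (hne : F ≠ 1) :
    2 ≤ mult (F * F) 0 := by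
  classical
  obtain ⟨κ, hκ, hκ0⟩ := dec_ne hF h1 hne
  have hz : dec F (dz n) = 1 := (dec_apply hF (dz n)).trans h1
  rw [mult_sq_eq hF]
  show 2 ≤ ∑ μ ∈ (dec F).support, dec F μ * dec F μ
  have h2 : ∑ μ ∈ ({dz n, κ} : Finset (Dm n)), dec F μ * dec F μ ≤
      ∑ μ ∈ (dec F).support, dec F μ * dec F μ := by
    refine Finset.sum_le_sum_of_subset_of_nonneg ?_ fun μ _ _ => mul_self_nonneg _
    intro μ hμ
    rw [Finset.mem_insert, Finset.mem_singleton] at hμ
    rw [Finsupp.mem_support_iff]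
    rcases hμ with h | h
    · rw [h, hz]
      exact one_ne_zero
    · rw [h]
      exact hκ0
  rw [Finset.sum_pair (Ne.symm hκ), hz] at h2
  have h3 : 1 ≤ dec F κ * dec F κ := by
    have h4 : 0 < dec F κ * dec F κ := mul_self_pos.2 hκ0
    omega
  omega

end Pool.Agent.EEAP
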