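import Pool.Agent.W_eea520p_h89.JLaw
import Pool.Agent.W_eea520p_h89.JRepU
import Pool.Agent.W_eea520p_h53.TwAn

/-!
# All the irreducible representations of the L-groups (MP_eea520_nt)
-/

set_option autoImplicit false

namespace Pool.Agent.EEAP

open Filter Topology Pool.Agent.EEA520 Pool.Agent.EEAN Pool.Agent.EEAG1

variable {r : ℕ} {n : Fin r → ℕ}

/-- The function of a virtual representation of the factor `l`. -/
noncomputable def fb (π : (i : Fin r) → GSys (n i)) (l : Fin r) (F : R (n l)) : BB π :=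
  (dec F).sum fun μ a => a • vb π l μ

theorem fb_coe (π : (i : Fin r) → GSys (n i)) (l : Fin r) {F : R (n l)} (hF : Inv0 F) :
    ((fb π l F : BB π) : Pr → ℝ) = vf (π l) F := by
  have h2 := map_finsuppSum (BB π).subtype (dec F) fun μ a => a • vb π l μ
  rw [Subring.coe_subtype] at h2
  unfold fb
  rw [h2, vf_dec (π l) hF]
  refine Finsupp.sum_congr fun μ _ => ?_
  rfl

theorem fb_mul {π : (i : Fin r) → GSys (n i)} (hπ : ∀ i, Tempered (π i)) (l : Fin r)
    {F G : R (n l)} (hF : Inv0 F) (hG : Inv0 G) : fb π l F * fb π l G = fb π l (F * G) := by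
  apply Subtype.ext
  have h1 : ((fb π l F * fb π l G : BB π) : Pr → ℝ) =
      ((fb π l F : BB π) : Pr → ℝ) * ((fb π l G : BB π) : Pr → ℝ) := rfl
  rw [h1, fb_coe π l hF, fb_coe π l hG, ← vf_mul (hπ l) hF hG]
  exact (fb_coe π l (hF.mul hG)).symm

theorem ord_of_poleOrderT' {π : (i : Fin r) → GSys (n i)} (hπ : ∀ i, Tempered (π i)) {e : Pr → ℂ}
    (he : ∀ p, ‖e p‖ = 1) {m : (i : Fin r) → Wt (n i) →₀ ℤ} {k : ℤ} (h : PoleOrderT π m e k) :
    Ord (fun p => (e p * ∏ i, trc (π i) (m i) p).re) k := by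
  obtain ⟨u, rfl⟩ := exists_unit he
  have h1 : PoleOrder (catU u π) (catMU m) (pt 0) k := by
    rw [pt_zero]
    exact (poleOrder_catU u π m k).2 h
  have h2 := ord_of_poleOrder (tempered_catU he hπ) h1
  have h3 : tre (catU u π) (catMU m) 0 =
      fun p => (((u p : ℂˣ) : ℂ) * ∏ i, trc (π i) (m i) p).re := by
    funext p
    rw [tre_eq]
    have h4 : tcx (catU u π) (catMU m) p = ((u p : ℂˣ) : ℂ) * ∏ i, trc (π i) (m i) p := by
      rw [← trc_catU]
      rfl
    have h5 : (((p : ℕ) : ℂ) ^ (-(((0 : ℝ) : ℂ) * Complex.I))) = 1 := by simp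
    rw [h4, h5, mul_one]
  rw [h3] at h2
  exact h2

theorem pt_ineq {N y g B : ℝ} (hy : g ^ 2 ≤ y) (hB : y ≤ B) (hN : 4 * (1 + B) ≤ N) :
    2 * N * g ≤ (N - 2) * 1 + (N + 4) * y + (-2) * (y * y) := by
  have hy0 : 0 ≤ y := (sq_nonneg g).trans hy
  obtain ⟨s, hs0, hs⟩ : ∃ s : ℝ, 0 ≤ s ∧ s * s = y :=
    ⟨Real.sqrt y, Real.sqrt_nonneg y, Real.mul_self_sqrt hy0⟩
  have hg : g ≤ s := by
    by_contra h
    push Not at h
    nlinarith
  have hN0 : 0 ≤ N := by linarith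
  have h1 : 2 * (1 + s) ^ 2 ≤ N := by nlinarith [sq_nonneg (1 - s)]
  have h2 : 2 * N * g ≤ 2 * N * s := mul_le_mul_of_nonneg_left hg (by linarith)
  have h3 : 0 ≤ (1 - s) ^ 2 * (N - 2 * (1 + s) ^ 2) := mul_nonneg (sq_nonneg _) (by linarith)
  have h4 : (N - 2) * 1 + (N + 4) * y + (-2) * (y * y) =
      2 * N * s + (1 - s) ^ 2 * (N - 2 * (1 + s) ^ 2) := by
    rw [← hs]
    ring
  rw [h4]
  linarith

/-- (U) All the irreducible representations of the L-groups, with one Euler product. -/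
theorem main_U (hn : ∀ i, 1 ≤ n i) {π : (i : Fin r) → GSys (n i)} (hπ : ∀ i, Tempered (π i))
    (hST : ∀ (i : Fin r) (μ : Fin (n i) → ℤ) (m : Wt (n i) →₀ ℤ), IsIrr 0 μ m → μ ≠ 0 →
      PoleOrder (π i) m 1 0)
    (hM : ∀ (μ : (i : Fin r) → Fin (n i) → ℤ) (m : (i : Fin r) → Wt (n i) →₀ ℤ), Irrs μ m →
      MeroAtP π m 1) {ρ : Fin r → Fin r}
    (hρ : ∀ i j, i ≠ j → ∀ m : (i : Fin r) → Wt (n i) →₀ ℤ, Irrs (stdWt n i j) m →
      PoleOrderP π m 1 (if ρ i = ρ j then 1 else 0))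
    {k : Fin r → ℤ} {μ : (i : Fin r) → Fin (n i) → ℤ} {m : (i : Fin r) → Wt (n i) →₀ ℤ}
    (hm : ∀ i, IsIrr (k i) (μ i) (m i))
    (hinj : ∀ i j, i ≠ j → ρ i = ρ j → (∀ a, 2 * μ i a = k i) ∨ ∀ a, 2 * μ j a = k j)
    (hne : ∃ i, ¬ ∀ a, 2 * μ i a = k i) {e : Pr → ℂ} (he : ∀ p, ‖e p‖ = 1)
    (hMe : MeroAtT π m e) : PoleOrderT π m e 0 := by
  classical
  obtain ⟨E, hE⟩ := exists_E hπ hM
  have hpos := E_nonneg hE
  have h1 := E_one hE
  have hfam := fun k => fam_vb hπ hST hE k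
  set T : Finset (Fin r) := Finset.univ.filter fun i => ¬ ∀ a, 2 * μ i a = k i with hT
  have hind : ∀ i : ∀ k, Dm (n k), (∀ k, k ∉ T → i k = (basDm (n k)).z) →
      i ≠ (fun k => (basDm (n k)).z) → E (∏ k, vb π k (i k)) = 0 := by
    intro i hi hne
    refine indep_of_pairs hpos h1 (fun k => pieDm (hn k)) hfam T ?_ i hi hne
    intro a ha b hb hab
    rw [pieDm_st, pieDm_st]
    refine pair_zero hπ hE hab fun m' hm' => ?_
    have h2 := hρ a b hab m' hm'
    rw [if_neg] at h2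
    · exact h2
    · intro h3
      rcases hinj a b hab h3 with h4 | h4
      · exact (Finset.mem_filter.1 ha).2 h4
      · exact (Finset.mem_filter.1 hb).2 h4
  have hI : ∀ i, Inv0 (sqR (k i) (m i)) := fun i => sqR_inv0 (hm i)
  set b : BB π := ∏ i ∈ T, fb π i (sqR (k i) (m i)) with hb
  have hEb : E b = 1 := by
    have h2 := indep_prod hfam h1 T hind fun i => dec (sqR (k i) (m i))
    have h3 : E b = ∏ i ∈ T, dec (sqR (k i) (m i)) (basDm (n i)).z := h2
    rw [h3]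
    refine Finset.prod_eq_one fun i _ => ?_
    rw [basDm_z, dec_apply (hI i)]
    exact sqR_mult (hm i)
  have hEbb : 2 ≤ E (b * b) := by
    have h2 := indep_prod hfam h1 T hind fun i => dec (sqR (k i) (m i) * sqR (k i) (m i))
    have h3 : b * b = ∏ i ∈ T, fb π i (sqR (k i) (m i) * sqR (k i) (m i)) := by
      rw [hb, ← Finset.prod_mul_distrib]
      exact Finset.prod_congr rfl fun i _ => fb_mul hπ i (hI i) (hI i)
    have h4 : E (b * b) =
        ∏ i ∈ T, dec (sqR (k i) (m i) * sqR (k i) (m i)) (basDm (n i)).z := by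
      rw [h3]
      exact h2
    have h5 : ∀ i ∈ T, 2 ≤ dec (sqR (k i) (m i) * sqR (k i) (m i)) (basDm (n i)).z := by
      intro i hi
      rw [basDm_z, dec_apply ((hI i).mul (hI i))]
      exact two_le_mult (hI i) (sqR_mult (hm i)) (sqR_ne (hm i) (Finset.mem_filter.1 hi).2)
    obtain ⟨i₀, hi₀⟩ := hne
    have hi₀T : i₀ ∈ T := Finset.mem_filter.2 ⟨Finset.mem_univ _, hi₀⟩
    rw [h4, ← Finset.mul_prod_erase T _ hi₀T]
    have h6 : 1 ≤ ∏ i ∈ T.erase i₀,
        dec (sqR (k i) (m i) * sqR (k i) (m i)) (basDm (n i)).z := by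
      refine Finset.prod_induction _ (fun x : ℤ => 1 ≤ x) (fun x y hx hy => ?_) le_rfl
        fun i hi => ?_
      · nlinarith
      · exact one_le_two.trans (h5 i (Finset.mem_of_mem_erase hi))
    have h7 := h5 i₀ hi₀T
    nlinarith
  have hval : ∀ p, (b : Pr → ℝ) p = ‖∏ i, trc (π i) (m i) p‖ ^ 2 := by
    intro p
    have h2 : (b : Pr → ℝ) = ∏ i ∈ T, vf (π i) (sqR (k i) (m i)) := by
      rw [hb, ← Subring.coe_subtype, map_prod]
      refine Finset.prod_congr rfl fun i _ => ?_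
      exact fb_coe π i (hI i)
    rw [h2, Finset.prod_apply, norm_prod, ← Finset.prod_pow,
      ← Finset.prod_subset (Finset.subset_univ T) (fun i _ hi => ?_)]
    · exact Finset.prod_congr rfl fun i _ => sqR_val (hπ i) (hm i) p
    · have h3 : ∀ a, 2 * μ i a = k i := by
        by_contra h4
        exact hi (Finset.mem_filter.2 ⟨Finset.mem_univ _, h4⟩)
      rw [irr_dim_one (hπ i) (hm i) h3, one_pow]
  obtain ⟨a, ha⟩ := exists_poleOrderT hπ he hMe
  have hg := ord_of_poleOrderT' hπ he ha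
  set g : Pr → ℝ := fun p => (e p * ∏ i, trc (π i) (m i) p).re with hgdef
  have hgb : ∀ p, g p ^ 2 ≤ (b : Pr → ℝ) p := by
    intro p
    rw [hval p, ← sq_abs]
    have h2 : |g p| ≤ ‖∏ i, trc (π i) (m i) p‖ := by
      refine (Complex.abs_re_le_norm _).trans ?_
      rw [norm_mul, he p, one_mul]
    exact pow_le_pow_left₀ (abs_nonneg _) h2 2
  obtain ⟨B, hB⟩ := bb_bd hπ b
  have hB' : ∀ p, (b : Pr → ℝ) p ≤ B := fun p => (le_abs_self _).trans (hB p)
  have hBg : BdP g := by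
    refine ⟨1 + B, fun p => ?_⟩
    have h2 := hgb p
    have h3 := hB' p
    rw [abs_le]
    constructor <;> nlinarith [sq_nonneg (g p - 1), sq_nonneg (g p + 1)]
  have hB0 : 0 ≤ B := by
    let p : Pr := ⟨2, Nat.prime_two⟩
    exact ((sq_nonneg _).trans (hgb p)).trans (hB' p)
  set N : ℝ := 4 * (1 + B) with hN
  have key : ∀ x : ℝ, x ^ 2 = 1 → 2 * N * (x * a) ≤ 2 * N - 2 := by
    intro x hx
    have m1 : MeanP (fun _ => (N - 2) * 1) ((N - 2) * 1) := MeanP.one.const_mul _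
    have m2 : MeanP (fun p => (N + 4) * (b : Pr → ℝ) p) ((N + 4) * (E b : ℝ)) :=
      (Ord.meanP (hE b)).const_mul _
    have m3 : MeanP (fun p => (-2) * ((b : Pr → ℝ) p * (b : Pr → ℝ) p))
        ((-2) * (E (b * b) : ℝ)) := (Ord.meanP (hE (b * b))).const_mul _
    have m4 : MeanP (fun p => (-(2 * N * x)) * g p) ((-(2 * N * x)) * (a : ℝ)) :=
      (Ord.meanP hg).const_mul _
    have b1 : BdP fun _ : Pr => (N - 2) * (1 : ℝ) := ⟨|(N - 2) * 1|, fun _ => le_rfl⟩
    have b2 : BdP fun p => (N + 4) * (b : Pr → ℝ) p := (bb_bd hπ b).const_mul _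
    have b3 : BdP fun p => (-2) * ((b : Pr → ℝ) p * (b : Pr → ℝ) p) :=
      (bb_bd hπ (b * b)).const_mul _
    have b4 : BdP fun p => (-(2 * N * x)) * g p := hBg.const_mul _
    have m5 := MeanP.add ((b1.add b2).add b3) b4 (MeanP.add (b1.add b2) b3
      (MeanP.add b1 b2 m1 m2) m3) m4
    have m6 := m5.nonneg fun p => by
      have h2 : (x * g p) ^ 2 ≤ (b : Pr → ℝ) p := by
        rw [mul_pow, hx, one_mul]
        exact hgb p
      have h3 := pt_ineq h2 (hB' p) hN.ge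
      linarith
    have h4 : (2 : ℝ) ≤ (E (b * b) : ℝ) := by exact_mod_cast hEbb
    rw [hEb, Int.cast_one] at m6
    linarith
  have k1 := key 1 (by norm_num)
  have k2 := key (-1) (by norm_num)
  have hN4 : 4 ≤ N := by linarith
  have ha0 : a = 0 := by
    by_contra h
    rcases lt_or_gt_of_ne h with h2 | h2
    · have h3 : (a : ℝ) ≤ -1 := by exact_mod_cast (by omega : a ≤ -1)
      nlinarith
    · have h3 : (1 : ℝ) ≤ a := by exact_mod_cast (by omega : 1 ≤ a)
      nlinarith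
  rw [ha0] at ha
  exact ha

end Pool.Agent.EEAP
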