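import Pool.Agent.W_eea520p_h89.JLaw

/-!
# The joint law for an abstract functional (MP_eea520_nt, theorem P, finite version)
-/

set_option autoImplicit false

namespace Pool.Agent.EEAP

open Filter Topology Pool.Agent.EEA520 Pool.Agent.EEAN Pool.Agent.EEAG1

/-- The proof of `main_D` for an abstract ring. -/
theorem abs_law {B : Type} [CommRing B] {E : B →+ ℤ} {r : ℕ} {n : Fin r → ℕ}
    (hn : ∀ i, 1 ≤ n i) (hpos : ∀ f, 0 ≤ E (f * f)) (h1 : E 1 = 1)
    {V : (i : Fin r) → Dm (n i) → B} (hfam : ∀ i, Fam E (basDm (n i)) (V i))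
    (hdec : ∀ (l : Fin r) (T : Finset (Fin r)) (κ : Fin r → Dm (n l)),
      ∏ i ∈ T, V l (κ i) = (dec (∏ i ∈ T, chi (κ i))).sum fun μ a => a • V l μ) :
    ∃ ρ : Fin r → Fin r, (∀ i, ρ (ρ i) = ρ i ∧ n (ρ i) = n i) ∧
      (∀ i j, E (V i (dst (n i)) * V j (dst (n j))) = if ρ i = ρ j then 1 else 0) ∧
      (∀ i j, ρ i = ρ j → ∀ μ, Ae E (V i μ) (V j (cd (n j) μ))) ∧
      ∀ ν : (i : Fin r) → Dm (n i),
        E (∏ i, V i (ν i)) = ∏ l, mult1 (∏ i with ρ i = l, crs (n l) (chi (ν i)).coeff) := by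
  classical
  obtain ⟨S, hS1, hS2⟩ := exists_maximal
    (fun k l => E (V k (dst (n k)) * V l (dst (n l))) ≠ 0)
    (by
      intro k l h
      rw [mul_comm]
      exact h)
  have hind : ∀ i : ∀ k, Dm (n k), (∀ k, k ∉ S → i k = (basDm (n k)).z) →
      i ≠ (fun k => (basDm (n k)).z) → E (∏ k, V k (i k)) = 0 := by
    intro i hi hne
    refine indep_of_pairs hpos h1 (fun k => pieDm (hn k)) hfam S ?_ i hi hne
    intro k hk l hl hkl
    rw [pieDm_st, pieDm_st]
    exact not_not.1 (hS1 k hk l hl hkl)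
  have hrep : ∀ i, ∃ l, l ∈ S ∧ n i = n l ∧
      (∀ ν : Dm (n i), Ae E (V i ν) (V l (cd (n l) ν))) ∧ (i ∈ S → l = i) := by
    intro i
    by_cases hi : i ∈ S
    · refine ⟨i, hi, rfl, fun ν => ?_, fun _ => rfl⟩
      rw [cd_self]
      exact Ae.refl _
    · obtain ⟨l, hl, hil⟩ := hS2 i hi
      have hnn : n i = n l := n_eq hpos (hn i) (hn l) (hfam i) (hfam l) hil
      exact ⟨l, hl, hnn, fun ν => ae_cd hnn hpos (hn i) (hfam i) (hfam l) hil ν,
        fun h => absurd h hi⟩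
  choose ρ hρS hρn hρA hρid using hrep
  have hval : ∀ i j, E (V i (dst (n i)) * V j (dst (n j))) = if ρ i = ρ j then 1 else 0 := by
    intro i j
    have h3 := ((hρA i (dst (n i))).mul (hρA j (dst (n j)))).val
    rw [cd_dst (hρn i), cd_dst (hρn j)] at h3
    rw [h3]
    by_cases h : ρ i = ρ j
    · rw [if_pos h, ← h]
      exact (hfam (ρ i)).mul_self _
    · rw [if_neg h]
      exact not_not.1 (hS1 (ρ i) (hρS i) (ρ j) (hρS j) h)
  refine ⟨ρ, fun i => ⟨hρid (ρ i) (hρS i), (hρn i).symm⟩, hval, ?_, ?_⟩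
  · intro i j hij μ
    have hnn : n i = n j := by rw [hρn i, hρn j, hij]
    refine ae_cd hnn hpos (hn i) (hfam i) (hfam j) ?_ μ
    rw [hval i j, if_pos hij]
    exact one_ne_zero
  · intro ν
    have h2 : E (∏ k, V k (ν k)) = E (∏ k, V (ρ k) (cd (n (ρ k)) (ν k))) :=
      (Ae.prod Finset.univ fun k _ => hρA k (ν k)).val
    have h3 : ∏ k, V (ρ k) (cd (n (ρ k)) (ν k)) =
        ∏ l ∈ S, (dec (∏ k with ρ k = l, chi (cd (n l) (ν k)))).sum fun κ a => a • V l κ := by
      rw [← Finset.prod_fiberwise_of_maps_to (s := Finset.univ) (t := S) (g := ρ)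
        (fun k _ => hρS k)]
      refine Finset.prod_congr rfl fun l _ => ?_
      rw [← hdec l]
      refine Finset.prod_congr rfl fun k hk => ?_
      rw [(Finset.mem_filter.1 hk).2]
    rw [h2, h3, indep_prod hfam h1 S hind fun l => dec (∏ k with ρ k = l, chi (cd (n l) (ν k))),
      ← Finset.prod_subset (Finset.subset_univ S) (fun l _ hl => ?_)]
    · refine Finset.prod_congr rfl fun l _ => ?_
      have h5 : ∏ i with ρ i = l, crs (n l) (chi (ν i)).coeff =
          ∏ k with ρ k = l, chi (cd (n l) (ν k)) := by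
        refine Finset.prod_congr rfl fun k hk => ?_
        have hk' : n k = n l := by rw [hρn k, (Finset.mem_filter.1 hk).2]
        rw [crs_chi hk']
      rw [h5, mult1_eq, basDm_z, dec_apply (inv0_prod _ _)]
      rfl
    · have h6 : (Finset.univ.filter fun k => ρ k = l) = ∅ :=
        Finset.filter_false_of_mem fun k _ hk => hl (by rw [← hk]; exact hρS k)
      rw [h6, Finset.prod_empty, mult1_one]

end Pool.Agent.EEAP
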