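import Pool.Agent.W_eea520p_h56.Defs

/-!
# The joint law of a tuple of systems (MP_eea520_nt, theorem P): definitions
-/

set_option autoImplicit false

namespace Pool.Agent.EEAP

open Pool.Agent.EEA520 Pool.Agent.EEAN

/-- The weight `w`, as a weight with `N` coordinates. This is `w` if `n = N`. -/
def tw (N : ℕ) {n : ℕ} (w : Wt n) : Wt N :=
  (w.1, fun j => if h : (j : ℕ) < n then w.2 ⟨j, h⟩ else 0)

/-- The function `m` on the weights, as an element of the group ring of the weights with `N`
coordinates. For `n = N` this is the element `m` of the group ring. -/
noncomputable def crs (N : ℕ) {n : ℕ} (m : Wt n →₀ ℤ) : R N :=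
  AddMonoidAlgebra.ofCoeff (m.mapDomain (tw N))

/-- The multiplicity of the trivial representation of `SO_{2N+1}` in a representation with the character
`f`. By Weyl's formula the product of the irreducible character of the highest weight `μ` with the
alternating sum of `ρ` is the alternating sum of `μ + ρ`, and its coefficient at `ρ` is `1` if `μ = 0` and
`0` otherwise. So the multiplicity is the coefficient of `ρ` in the product of `f` with the alternating
sum of `ρ`. -/
noncomputable def mult1 {N : ℕ} (f : R N) : ℤ :=
  (f * alt 1 (fun j : Fin N => (N : ℤ) - j)).coeff (rho N)

end Pool.Agent.EEAP
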