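import Pool.Agent.W_eea520p_h89.JLaw

/-!
# A sequence of tuples of systems, and the limit functional (MP_eea520_nt, theorem P, finite version)
-/

set_option autoImplicit false

namespace Pool.Agent.EEAP

open Filter Topology Pool.Agent.EEA520 Pool.Agent.EEAN Pool.Agent.EEAG1

variable {r : ℕ} {n : Fin r → ℕ}

/-- The trace functions of all the tuples. -/
noncomputable def vlU (P : ℕ → (i : Fin r) → GSys (n i)) (i : Fin r) (μ : Dm (n i)) :
    ℕ → Pr → ℝ :=
  fun R => vf (P R i) (chi μ)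

/-- The ring generated by the trace functions. -/
def BU (P : ℕ → (i : Fin r) → GSys (n i)) : Subring (ℕ → Pr → ℝ) :=
  Subring.closure {f | ∃ (i : Fin r) (μ : Dm (n i)), f = vlU P i μ}

/-- The trace functions as elements of the ring. -/
noncomputable def vbU (P : ℕ → (i : Fin r) → GSys (n i)) (i : Fin r) (μ : Dm (n i)) : BU P :=
  ⟨vlU P i μ, Subring.subset_closure ⟨i, μ, rfl⟩⟩

/-- The values for one tuple. -/
noncomputable def evU (P : ℕ → (i : Fin r) → GSys (n i)) (R : ℕ) : BU P →+* (Pr → ℝ) :=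
  (Pi.evalRingHom (fun _ : ℕ => Pr → ℝ) R).comp (BU P).subtype

theorem evU_vbU (P : ℕ → (i : Fin r) → GSys (n i)) (R : ℕ) (i : Fin r) (μ : Dm (n i)) :
    evU P R (vbU P i μ) = vf (P R i) (chi μ) := rfl

theorem extU {P : ℕ → (i : Fin r) → GSys (n i)} {f g : BU P} (h : ∀ R, evU P R f = evU P R g) :
    f = g := Subtype.ext (funext h)

theorem vbU_one (P : ℕ → (i : Fin r) → GSys (n i)) (i : Fin r) :
    vbU P i (basDm (n i)).z = 1 := extU fun R => by
  rw [evU_vbU, map_one, basDm_z, chi_zero (dz (n i)) rfl, vf_one]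

theorem evU_sum (P : ℕ → (i : Fin r) → GSys (n i)) (R : ℕ) (i : Fin r) (f : Dm (n i) →₀ ℤ) :
    evU P R (f.sum fun μ a => a • vbU P i μ) = f.sum fun μ a => a • vf (P R i) (chi μ) := by
  rw [map_finsuppSum]
  refine Finsupp.sum_congr fun κ _ => ?_
  rw [map_zsmul, evU_vbU]

theorem basDm_dec {n : ℕ} (μ ν : Dm n) : (basDm n).N μ ν = dec (chi μ * chi ν) := by
  ext κ
  rw [basDm_N, dec_apply ((chi_inv0 μ).mul (chi_inv0 ν))]

theorem vbU_mul {P : ℕ → (i : Fin r) → GSys (n i)} (hP : ∀ R i, Tempered (P R i)) (i : Fin r)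
    (μ ν : Dm (n i)) :
    vbU P i μ * vbU P i ν = ((basDm (n i)).N μ ν).sum fun κ a => a • vbU P i κ :=
  extU fun R => by
    rw [map_mul, evU_sum, evU_vbU, evU_vbU, ← vf_mul (hP R i) (chi_inv0 μ) (chi_inv0 ν), basDm_dec,
      ← vf_dec (P R i) ((chi_inv0 μ).mul (chi_inv0 ν))]

theorem vbU_prod {ι : Type} {P : ℕ → (i : Fin r) → GSys (n i)} (hP : ∀ R i, Tempered (P R i))
    (l : Fin r) (T : Finset ι) (κ : ι → Dm (n l)) :
    ∏ i ∈ T, vbU P l (κ i) = (dec (∏ i ∈ T, chi (κ i))).sum fun μ a => a • vbU P l μ :=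
  extU fun R => by
    rw [map_prod, evU_sum, ← vf_dec (P R l) (inv0_prod T κ), vf_prod (hP R l)]
    rfl

private theorem JU_prod_mem {P : ℕ → (i : Fin r) → GSys (n i)} (hP : ∀ R i, Tempered (P R i))
    (μ ν : (i : Fin r) → Dm (n i)) :
    (∏ i, vbU P i (μ i)) * (∏ i, vbU P i (ν i)) ∈
      AddSubgroup.closure (Set.range fun μ : (i : Fin r) → Dm (n i) => ∏ i, vbU P i (μ i)) := by
  rw [← Finset.prod_mul_distrib]
  have h1 : ∀ i, vbU P i (μ i) * vbU P i (ν i) =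
      ∑ κ ∈ ((basDm (n i)).N (μ i) (ν i)).support,
        ((basDm (n i)).N (μ i) (ν i)) κ • vbU P i κ := fun i => vbU_mul hP i (μ i) (ν i)
  rw [Finset.prod_congr rfl fun i _ => h1 i, Finset.prod_univ_sum]
  refine AddSubgroup.sum_mem _ fun κ _ => ?_
  have h2 : ∏ i, ((basDm (n i)).N (μ i) (ν i)) (κ i) • vbU P i (κ i) =
      (∏ i, ((basDm (n i)).N (μ i) (ν i)) (κ i)) • ∏ i, vbU P i (κ i) := by
    simp only [zsmul_eq_mul]
    rw [Finset.prod_mul_distrib, Int.cast_prod]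
  rw [h2]
  have h3 : ∏ i, vbU P i (κ i) ∈
      AddSubgroup.closure (Set.range fun μ : (i : Fin r) → Dm (n i) => ∏ i, vbU P i (μ i)) :=
    AddSubgroup.subset_closure ⟨κ, rfl⟩
  exact AddSubgroup.zsmul_mem _ h3 _

private theorem JU_mul_mem {P : ℕ → (i : Fin r) → GSys (n i)} (hP : ∀ R i, Tempered (P R i))
    {x y : BU P}
    (hx : x ∈ AddSubgroup.closure (Set.range fun μ : (i : Fin r) → Dm (n i) =>
      ∏ i, vbU P i (μ i)))
    (hy : y ∈ AddSubgroup.closure (Set.range fun μ : (i : Fin r) → Dm (n i) =>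
      ∏ i, vbU P i (μ i))) :
    x * y ∈ AddSubgroup.closure (Set.range fun μ : (i : Fin r) → Dm (n i) =>
      ∏ i, vbU P i (μ i)) := by
  induction hx using AddSubgroup.closure_induction with
  | mem x hx =>
    obtain ⟨μ, rfl⟩ := hx
    induction hy using AddSubgroup.closure_induction with
    | mem y hy =>
      obtain ⟨ν, rfl⟩ := hy
      exact JU_prod_mem hP μ ν
    | zero =>
      rw [mul_zero]
      exact AddSubgroup.zero_mem _
    | add a b _ _ ha hb =>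
      rw [mul_add]
      exact AddSubgroup.add_mem _ ha hb
    | neg a _ ha =>
      rw [mul_neg]
      exact AddSubgroup.neg_mem _ ha
  | zero =>
    rw [zero_mul]
    exact AddSubgroup.zero_mem _
  | add a b _ _ ha hb =>
    rw [add_mul]
    exact AddSubgroup.add_mem _ ha hb
  | neg a _ ha =>
    rw [neg_mul]
    exact AddSubgroup.neg_mem _ ha

private theorem JU_one_mem (P : ℕ → (i : Fin r) → GSys (n i)) :
    (1 : BU P) ∈ AddSubgroup.closure (Set.range fun μ : (i : Fin r) → Dm (n i) =>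
      ∏ i, vbU P i (μ i)) := by
  refine AddSubgroup.subset_closure ⟨fun i => (basDm (n i)).z, ?_⟩
  show ∏ i, vbU P i (basDm (n i)).z = 1
  exact Finset.prod_eq_one fun i _ => vbU_one P i

private theorem JU_gen_mem (P : ℕ → (i : Fin r) → GSys (n i)) (i : Fin r) (μ : Dm (n i)) :
    vbU P i μ ∈ AddSubgroup.closure (Set.range fun μ : (i : Fin r) → Dm (n i) =>
      ∏ i, vbU P i (μ i)) := by
  classical
  refine AddSubgroup.subset_closure ⟨Function.update (fun i => (basDm (n i)).z) i μ, ?_⟩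
  show ∏ j, vbU P j (Function.update (fun i => (basDm (n i)).z) i μ j) = vbU P i μ
  rw [Finset.prod_eq_single i]
  · rw [Function.update_self]
  · intro j _ hj
    rw [Function.update_of_ne hj]
    exact vbU_one P j
  · intro h
    exact absurd (Finset.mem_univ i) h

theorem bU_span {P : ℕ → (i : Fin r) → GSys (n i)} (hP : ∀ R i, Tempered (P R i)) (f : BU P) :
    f ∈ AddSubgroup.closure (Set.range fun μ : (i : Fin r) → Dm (n i) => ∏ i, vbU P i (μ i)) := by
  obtain ⟨f, hf⟩ := f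
  refine Subring.closure_induction (p := fun x hx => (⟨x, hx⟩ : BU P) ∈
    AddSubgroup.closure (Set.range fun μ : (i : Fin r) → Dm (n i) => ∏ i, vbU P i (μ i)))
    ?_ ?_ ?_ ?_ ?_ ?_ hf
  · rintro x ⟨i, μ, rfl⟩
    exact JU_gen_mem P i μ
  · exact AddSubgroup.zero_mem _
  · exact JU_one_mem P
  · intro x y hx hy h1 h2
    exact AddSubgroup.add_mem _ h1 h2
  · intro x hx h1
    exact AddSubgroup.neg_mem _ h1
  · intro x y hx hy h1 h2
    exact JU_mul_mem hP h1 h2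

/-- The products are bounded independently of the tuple. -/
theorem gen_le {P : ℕ → (i : Fin r) → GSys (n i)} (hP : ∀ R i, Tempered (P R i))
    (μ : (i : Fin r) → Dm (n i)) (R : ℕ) (p : Pr) :
    |evU P R (∏ i, vbU P i (μ i)) p| ≤ ∏ i, mnorm (chi (μ i)).coeff := by
  rw [map_prod, Finset.prod_apply, Finset.abs_prod]
  exact Finset.prod_le_prod (fun i _ => abs_nonneg _) fun i _ =>
    (Complex.abs_re_le_norm _).trans (tcx_le (hP R i) _ p)

theorem bU_bd {P : ℕ → (i : Fin r) → GSys (n i)} (hP : ∀ R i, Tempered (P R i)) (R : ℕ)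
    (f : BU P) : BdP (evU P R f) := by
  have hf := bU_span hP f
  induction hf using AddSubgroup.closure_induction with
  | mem x hx =>
    obtain ⟨μ, rfl⟩ := hx
    exact ⟨_, gen_le hP μ R⟩
  | zero =>
    rw [map_zero]
    exact ⟨0, fun p => by rw [Pi.zero_apply, abs_zero]⟩
  | add a b _ _ ha hb =>
    rw [map_add]
    exact ha.add hb
  | neg a _ ha =>
    rw [map_neg]
    obtain ⟨C, hC⟩ := ha
    exact ⟨C, fun p => by rw [Pi.neg_apply, abs_neg]; exact hC p⟩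

theorem ord_le {f : Pr → ℝ} {C : ℝ} {k : ℤ} (hC : ∀ p, |f p| ≤ C) (h : Ord f k) : |(k : ℝ)| ≤ C := by
  have hb : BdP f := ⟨C, hC⟩
  have b1 : BdP fun _ : Pr => C * (1 : ℝ) := ⟨|C|, fun p => by rw [mul_one]⟩
  have h1 : MeanP (fun _ : Pr => C * (1 : ℝ)) (C * 1) := MeanP.one.const_mul C
  have h2 := MeanP.add b1 (hb.const_mul (-1)) h1 (h.meanP.const_mul (-1))
  have h3 := MeanP.add b1 hb h1 h.meanP
  have h4 := h2.nonneg fun p => by have := (abs_le.1 (hC p)).2; linarith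
  have h5 := h3.nonneg fun p => by have := (abs_le.1 (hC p)).1; linarith
  rw [abs_le]
  constructor <;> linarith

theorem exists_lim_fin (U : Ultrafilter ℕ) {K : ℕ → ℤ → Prop} (s : Finset ℤ)
    (h : ∀ᶠ R in (U : Filter ℕ), ∃ k ∈ s, K R k) : ∃ k : ℤ, ∀ᶠ R in (U : Filter ℕ), K R k := by
  classical
  induction s using Finset.induction_on with
  | empty =>
    obtain ⟨R, hR⟩ := h.exists
    obtain ⟨k, hk, _⟩ := hR
    exact absurd hk (Finset.notMem_empty k)
  | insert a s ha ih =>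
    have h1 : ∀ᶠ R in (U : Filter ℕ), K R a ∨ ∃ k ∈ s, K R k := by
      filter_upwards [h] with R hR
      obtain ⟨k, hk, hk'⟩ := hR
      rcases Finset.mem_insert.1 hk with rfl | hk2
      · exact Or.inl hk'
      · exact Or.inr ⟨k, hk2, hk'⟩
    rcases Ultrafilter.eventually_or.1 h1 with h2 | h2
    · exact ⟨a, h2⟩
    · exact ih h2

theorem exists_lim (U : Ultrafilter ℕ) {K : ℕ → ℤ → Prop} {C : ℝ}
    (h : ∀ᶠ R in (U : Filter ℕ), ∃ k : ℤ, |(k : ℝ)| ≤ C ∧ K R k) :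
    ∃ k : ℤ, ∀ᶠ R in (U : Filter ℕ), K R k := by
  refine exists_lim_fin U (Finset.Icc (-⌈C⌉) ⌈C⌉) ?_
  filter_upwards [h] with R hR
  obtain ⟨k, hk, hk'⟩ := hR
  refine ⟨k, ?_, hk'⟩
  rw [Finset.mem_Icc]
  have h1 := (abs_le.1 hk).1
  have h2 := (abs_le.1 hk).2
  have h3 := Int.le_ceil C
  constructor
  · have : (-(⌈C⌉ : ℝ)) ≤ (k : ℝ) := by linarith
    exact_mod_cast this
  · have : (k : ℝ) ≤ (⌈C⌉ : ℝ) := by linarith
    exact_mod_cast this

theorem coe_evU {P : ℕ → (i : Fin r) → GSys (n i)} (hP : ∀ R i, Tempered (P R i)) (R : ℕ)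
    (μ : (i : Fin r) → Dm (n i)) {m : (i : Fin r) → Wt (n i) →₀ ℤ}
    (hm : Irrs (fun i => (μ i).1) m) (p : Pr) :
    ∏ i, trc (P R i) (m i) p = ((evU P R (∏ i, vbU P i (μ i)) p : ℝ) : ℂ) := by
  rw [map_prod, Finset.prod_apply, Complex.ofReal_prod]
  refine Finset.prod_congr rfl fun i _ => ?_
  have h1 : m i = (chi (μ i)).coeff := (hm i).unique (chi_irr (μ i))
  rw [h1]
  exact vf_eq (hP R i) (chi_inv0 (μ i)) p

/-- If the functional knows the order, it is the order of the pole. -/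
theorem pole_of_ord {P : ℕ → (i : Fin r) → GSys (n i)} (hP : ∀ R i, Tempered (P R i)) (R : ℕ)
    (μ : (i : Fin r) → Dm (n i)) {m : (i : Fin r) → Wt (n i) →₀ ℤ}
    (hm : Irrs (fun i => (μ i).1) m) (hM : MeroAtP (P R) m 1) {k : ℤ}
    (hk : Ord (evU P R (∏ i, vbU P i (μ i))) k) : PoleOrderP (P R) m 1 k := by
  rw [← pt_zero] at hM ⊢
  obtain ⟨l, hl⟩ := exists_poleOrderP (hP R) hM
  have h1 := ord_of_poleOrderP (hP R) (coe_evU hP R μ hm) hl
  have h2 : (fun p => evU P R (∏ i, vbU P i (μ i)) p * cw 0 p) = evU P R (∏ i, vbU P i (μ i)) := by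
    funext p
    rw [cw_zero, mul_one]
  rw [h2] at h1
  rw [hk.unique h1]
  exact hl

theorem ord_lim {P : ℕ → (i : Fin r) → GSys (n i)} (hP : ∀ R i, Tempered (P R i))
    {U : Ultrafilter ℕ} (hM : ∀ μ : (i : Fin r) → Dm (n i), ∀ᶠ R in (U : Filter ℕ),
      MeroAtP (P R) (fun i => (chi (μ i)).coeff) 1) (f : BU P) :
    ∃ k : ℤ, ∀ᶠ R in (U : Filter ℕ), Ord (evU P R f) k := by
  have hf := bU_span hP f
  induction hf using AddSubgroup.closure_induction with
  | mem x hx =>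
    obtain ⟨μ, rfl⟩ := hx
    refine exists_lim U (C := ∏ i, mnorm (chi (μ i)).coeff) ?_
    filter_upwards [hM μ] with R hR
    rw [← pt_zero] at hR
    obtain ⟨l, hl⟩ := exists_poleOrderP (hP R) hR
    have h1 := ord_of_poleOrderP (hP R) (coe_evU hP R μ fun i => chi_irr (μ i)) hl
    have h2 : (fun p => evU P R (∏ i, vbU P i (μ i)) p * cw 0 p) =
        evU P R (∏ i, vbU P i (μ i)) := by
      funext p
      rw [cw_zero, mul_one]
    rw [h2] at h1
    exact ⟨l, ord_le (gen_le hP μ R) h1, h1⟩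
  | zero =>
    refine ⟨0, Eventually.of_forall fun R => ?_⟩
    rw [map_zero]
    exact ord_zero
  | add a b _ _ ha hb =>
    obtain ⟨k, hk⟩ := ha
    obtain ⟨l, hl⟩ := hb
    refine ⟨k + l, ?_⟩
    filter_upwards [hk, hl] with R h1 h2
    rw [map_add]
    exact Ord.add (bU_bd hP R a) (bU_bd hP R b) h1 h2
  | neg a _ ha =>
    obtain ⟨k, hk⟩ := ha
    refine ⟨-k, ?_⟩
    filter_upwards [hk] with R h1
    rw [map_neg]
    exact Ord.neg h1

theorem exists_EU {P : ℕ → (i : Fin r) → GSys (n i)} (hP : ∀ R i, Tempered (P R i))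
    {U : Ultrafilter ℕ} (hM : ∀ μ : (i : Fin r) → Dm (n i), ∀ᶠ R in (U : Filter ℕ),
      MeroAtP (P R) (fun i => (chi (μ i)).coeff) 1) :
    ∃ E : BU P →+ ℤ, ∀ f, ∀ᶠ R in (U : Filter ℕ), Ord (evU P R f) (E f) := by
  choose E hE using fun f : BU P => ord_lim hP hM f
  refine ⟨AddMonoidHom.mk' E fun a b => ?_, hE⟩
  obtain ⟨R, h1, h2, h3⟩ := ((hE (a + b)).and ((hE a).and (hE b))).exists
  rw [map_add] at h1
  exact h1.unique (Ord.add (bU_bd hP R a) (bU_bd hP R b) h2 h3)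

theorem EU_nonneg {P : ℕ → (i : Fin r) → GSys (n i)} {U : Ultrafilter ℕ} {E : BU P →+ ℤ}
    (hE : ∀ f, ∀ᶠ R in (U : Filter ℕ), Ord (evU P R f) (E f)) (f : BU P) : 0 ≤ E (f * f) := by
  obtain ⟨R, hR⟩ := (hE (f * f)).exists
  rw [map_mul] at hR
  have h1 : (0 : ℝ) ≤ (E (f * f) : ℝ) := hR.meanP.nonneg fun p => mul_self_nonneg (evU P R f p)
  exact_mod_cast h1

theorem EU_one {P : ℕ → (i : Fin r) → GSys (n i)} {U : Ultrafilter ℕ} {E : BU P →+ ℤ}
    (hE : ∀ f, ∀ᶠ R in (U : Filter ℕ), Ord (evU P R f) (E f)) : E 1 = 1 := by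
  obtain ⟨R, hR⟩ := (hE 1).exists
  rw [map_one] at hR
  exact hR.unique ord_one

theorem famU {P : ℕ → (i : Fin r) → GSys (n i)} (hP : ∀ R i, Tempered (P R i))
    {U : Ultrafilter ℕ} (hST : ∀ (i : Fin r) (μ : Dm (n i)), μ ≠ dz (n i) →
      ∀ᶠ R in (U : Filter ℕ), PoleOrder (P R i) (chi μ).coeff 1 0) {E : BU P →+ ℤ}
    (hE : ∀ f, ∀ᶠ R in (U : Filter ℕ), Ord (evU P R f) (E f)) (i : Fin r) :
    Fam E (basDm (n i)) (vbU P i) := by
  refine ⟨vbU_one P i, fun μ ν => vbU_mul hP i μ ν, EU_one hE, fun μ hμ => ?_⟩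
  rw [basDm_z] at hμ
  obtain ⟨R, hR, h2⟩ := ((hE (vbU P i μ)).and (hST i μ hμ)).exists
  rw [← pt_zero] at h2
  have h3 := ord_of_poleOrder (hP R i) h2
  have h4 : tre (P R i) (chi μ).coeff 0 = evU P R (vbU P i μ) := by
    funext p
    rw [tre_eq]
    have h5 : (((p : ℕ) : ℂ) ^ (-(((0 : ℝ) : ℂ) * Complex.I))) = 1 := by simp
    rw [h5, mul_one]
    rfl
  rw [h4] at h3
  exact hR.unique h3

end Pool.Agent.EEAP
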