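import Pool.Agent.W_eea520p_h89.JAbs
import Pool.Agent.W_eea520p_h89.JUlt

/-!
# The joint law from finitely many Euler products (MP_eea520_nt, theorem P, finite version)
-/

set_option autoImplicit false

namespace Pool.Agent.EEAP

open Filter Topology Pool.Agent.EEA520 Pool.Agent.EEAN Pool.Agent.EEAG1

variable {r : ℕ} {n : Fin r → ℕ}

theorem cpol_coeff_zero {n : ℕ} (t : Torus n) {k : ℕ} (hk : 2 * n + 1 < k) :
    (cpol t).coeff k = 0 := by
  refine Polynomial.coeff_eq_zero_of_natDegree_lt (lt_of_le_of_lt ?_ hk)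
  unfold cpol
  refine Polynomial.natDegree_mul_le.trans ?_
  have h1 : (Polynomial.X - Polynomial.C (1 : ℂ)).natDegree ≤ 1 :=
    (Polynomial.natDegree_X_sub_C _).le
  have h2 : (∏ i, ((Polynomial.X - Polynomial.C (t.x i : ℂ)) *
      (Polynomial.X - Polynomial.C (((t.x i)⁻¹ : ℂˣ) : ℂ)))).natDegree ≤ ∑ _i : Fin n, 2 := by
    refine (Polynomial.natDegree_prod_le _ _).trans (Finset.sum_le_sum fun i _ => ?_)
    refine Polynomial.natDegree_mul_le.trans ?_
    rw [Polynomial.natDegree_X_sub_C, Polynomial.natDegree_X_sub_C]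
  rw [Finset.sum_const, Finset.card_univ, Fintype.card_fin, smul_eq_mul] at h2
  omega

theorem prod_std_gen {B : Type} [CommRing B] {V : (i : Fin r) → Dm (n i) → B}
    (h1 : ∀ i, V i (basDm (n i)).z = 1) {i j : Fin r} (hij : i ≠ j)
    (ν : (k : Fin r) → Dm (n k)) (hν : ∀ k, (ν k).1 = stdWt n i j k) :
    ∏ k, V k (ν k) = V i (dst (n i)) * V j (dst (n j)) := by
  have h1' : ν i = dst (n i) := by
    refine Subtype.ext ?_
    rw [hν i]
    funext a
    simp [stdWt, dst]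
  have h2 : ν j = dst (n j) := by
    refine Subtype.ext ?_
    rw [hν j]
    funext a
    simp [stdWt, dst]
  rw [Fintype.prod_eq_mul i j hij, h1', h2]
  rintro k ⟨hki, hkj⟩
  have h3 : ν k = (basDm (n k)).z := by
    refine Subtype.ext ?_
    rw [hν k, basDm_z]
    funext a
    simp [stdWt, dz, hki, hkj]
  rw [h3]
  exact h1 k

/-- `n = m`: one polynomial serves both systems. -/
theorem close_gen {B : Type} [CommRing B] {E : B →+ ℤ} {n m : ℕ} (hnm : n = m) {V : Dm n → B}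
    {W : Dm m → B} (h : ∀ μ, Ae E (V μ) (W (cd m μ))) (k : ℕ) :
    ∃ (f : R n) (g : R m), Inv0 f ∧ Inv0 g ∧
      (∀ t : Torus n, (cpol t).coeff k = f.coeff.sum fun w e => (e : ℂ) * (t.ev w : ℂ)) ∧
      (∀ t : Torus m, (cpol t).coeff k = g.coeff.sum fun w e => (e : ℂ) * (t.ev w : ℂ)) ∧
      Ae E (∑ μ ∈ (dec f).support, (dec f μ) • V μ)
        (∑ μ ∈ (dec g).support, (dec g μ) • W μ) := by
  subst hnm
  obtain ⟨f, hf, hfc⟩ := exists_cpolR n k
  refine ⟨f, f, hf, hf, hfc, hfc, Ae.sum _ fun μ _ => Ae.smul _ ?_⟩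
  have h1 := h μ
  rw [cd_self] at h1
  exact h1

theorem close_U {P : ℕ → (i : Fin r) → GSys (n i)} (hP : ∀ R i, Tempered (P R i))
    {U : Ultrafilter ℕ} {E : BU P →+ ℤ}
    (hE : ∀ f, ∀ᶠ R in (U : Filter ℕ), Ord (evU P R f) (E f)) {i j : Fin r} (hnn : n i = n j)
    (h : ∀ μ, Ae E (vbU P i μ) (vbU P j (cd (n j) μ))) (k : ℕ) :
    ∀ᶠ R in (U : Filter ℕ), Summable fun p : Pr =>
      ‖(cpol (P R i p)).coeff k - (cpol (P R j p)).coeff k‖ ^ 2 / ((p : ℕ) : ℝ) := by
  obtain ⟨f, g, hf, hg, hfc, hgc, hae⟩ := close_gen (V := vbU P i) (W := vbU P j) hnn h k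
  set F : BU P := ∑ μ ∈ (dec f).support, (dec f μ) • vbU P i μ with hFd
  set G : BU P := ∑ μ ∈ (dec g).support, (dec g μ) • vbU P j μ with hGd
  have hF : ∀ R, evU P R F = vf (P R i) f := fun R => by
    have h1 := evU_sum P R i (dec f)
    rw [← vf_dec (P R i) hf] at h1
    exact h1
  have hG : ∀ R, evU P R G = vf (P R j) g := fun R => by
    have h1 := evU_sum P R j (dec g)
    rw [← vf_dec (P R j) hg] at h1
    exact h1
  have h0 : E ((F - G) * (F - G)) = 0 := (ae_iff (EU_nonneg hE)).1 hae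
  filter_upwards [hE ((F - G) * (F - G))] with R hord
  rw [h0] at hord
  have hval : ∀ p, evU P R ((F - G) * (F - G)) p = (vf (P R i) f p - vf (P R j) g p) ^ 2 := by
    intro p
    rw [map_mul, map_sub, hF R, hG R, sq]
    rfl
  have e1 : ∀ p, (cpol (P R i p)).coeff k = (vf (P R i) f p : ℂ) := fun p => by
    rw [hfc (P R i p), ← vf_eq (hP R i) hf p]
    rfl
  have e2 : ∀ p, (cpol (P R j p)).coeff k = (vf (P R j) g p : ℂ) := fun p => by
    rw [hgc (P R j p), ← vf_eq (hP R j) hg p]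
    rfl
  have hs := Ord.summable (fun p => by rw [hval p]; exact sq_nonneg _)
    (bU_bd hP R ((F - G) * (F - G))) hord
  refine hs.congr fun p => ?_
  rw [hval p, e1 p, e2 p, ← Complex.ofReal_sub, Complex.norm_real, Real.norm_eq_abs, sq_abs]

/-- The dominant weights with all coordinates at most `M`. -/
theorem finite_level (M : ℕ) :
    {ν : (i : Fin r) → Dm (n i) | ∀ i j, (ν i).1 j ≤ M}.Finite := by
  have hinj : Function.Injective fun (ν : (i : Fin r) → Dm (n i)) (i : Fin r) => (ν i).1 := by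
    intro ν ν' h
    funext i
    exact Subtype.ext (congrFun h i)
  refine Set.Finite.subset (Set.Finite.preimage hinj.injOn
    (Set.finite_Icc (0 : (i : Fin r) → Fin (n i) → ℤ) fun _ _ => (M : ℤ))) ?_
  intro ν hν
  exact ⟨fun i j => (ν i).2.2 j, fun i j => hν i j⟩

/-- THE FINITE VERSION. -/
theorem fin_law (hn : ∀ i, 1 ≤ n i) (M : ℕ) : ∃ R : ℕ, ∀ π : (i : Fin r) → GSys (n i),
    (∀ i, Tempered (π i)) →
    (∀ (i : Fin r) (μ : Fin (n i) → ℤ) (m : Wt (n i) →₀ ℤ), IsIrr 0 μ m → μ ≠ 0 →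
      (∀ j, μ j ≤ R) → PoleOrder (π i) m 1 0) →
    (∀ (μ : (i : Fin r) → Fin (n i) → ℤ) (m : (i : Fin r) → Wt (n i) →₀ ℤ), Irrs μ m →
      (∀ i j, μ i j ≤ R) → MeroAtP π m 1) →
    ∃ ρ : Fin r → Fin r, (∀ i, ρ (ρ i) = ρ i ∧ n (ρ i) = n i) ∧
      (∀ i j, i ≠ j → ∀ m : (i : Fin r) → Wt (n i) →₀ ℤ, Irrs (stdWt n i j) m →
        PoleOrderP π m 1 (if ρ i = ρ j then 1 else 0)) ∧
      (∀ i j, ρ i = ρ j → ∀ k, Summable fun p : Pr =>
        ‖(cpol (π i p)).coeff k - (cpol (π j p)).coeff k‖ ^ 2 / ((p : ℕ) : ℝ)) ∧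
      ∀ (μ : (i : Fin r) → Fin (n i) → ℤ) (m : (i : Fin r) → Wt (n i) →₀ ℤ), Irrs μ m →
        (∀ i j, μ i j ≤ M) →
        PoleOrderP π m 1 (∏ l, mult1 (∏ i with ρ i = l, crs (n l) (m i))) := by
  classical
  by_contra hno
  push Not at hno
  choose P hP hST hM hbad using hno
  let U : Ultrafilter ℕ := hyperfilter ℕ
  have hlarge : ∀ L : ℕ, ∀ᶠ R in (U : Filter ℕ), L ≤ R := fun L =>
    (Filter.Eventually.filter_mono Nat.hyperfilter_le_atTop (eventually_ge_atTop L))
  have hlev1 : ∀ {N : ℕ} (f : Fin N → ℤ), ∃ L : ℕ, ∀ j, f j ≤ L := by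
    intro N f
    refine ⟨(∑ j, |f j|).toNat, fun j => ?_⟩
    have h1 : |f j| ≤ ∑ j, |f j| :=
      Finset.single_le_sum (f := fun j => |f j|) (fun j _ => abs_nonneg _) (Finset.mem_univ j)
    have h2 := Int.self_le_toNat (∑ j, |f j|)
    have h3 := le_abs_self (f j)
    omega
  have hlev : ∀ ν : (i : Fin r) → Dm (n i), ∃ L : ℕ, ∀ i j, (ν i).1 j ≤ L := by
    intro ν
    choose L hL using fun i => hlev1 (ν i).1
    refine ⟨∑ i, L i, fun i j => (hL i j).trans ?_⟩
    exact_mod_cast Finset.single_le_sum (f := L) (fun j _ => Nat.zero_le _) (Finset.mem_univ i)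
  have hMU : ∀ μ : (i : Fin r) → Dm (n i), ∀ᶠ R in (U : Filter ℕ),
      MeroAtP (P R) (fun i => (chi (μ i)).coeff) 1 := by
    intro μ
    obtain ⟨L, hL⟩ := hlev μ
    filter_upwards [hlarge L] with R hR
    refine hM R (fun i => (μ i).1) _ (fun i => chi_irr (μ i)) fun i j => (hL i j).trans ?_
    exact_mod_cast hR
  have hSTU : ∀ (i : Fin r) (μ : Dm (n i)), μ ≠ dz (n i) →
      ∀ᶠ R in (U : Filter ℕ), PoleOrder (P R i) (chi μ).coeff 1 0 := by
    intro i μ hμ
    obtain ⟨L, hL⟩ := hlev1 μ.1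
    filter_upwards [hlarge L] with R hR
    refine hST R i μ.1 _ (chi_irr μ) (fun h => hμ (Subtype.ext h)) fun j => (hL j).trans ?_
    exact_mod_cast hR
  obtain ⟨E, hE⟩ := exists_EU hP hMU
  have hpos := EU_nonneg hE
  have hfam := fun i => famU hP hSTU hE i
  obtain ⟨ρ, h1, h2, h3, h4⟩ := abs_law hn hpos (EU_one hE) hfam
    fun l T κ => vbU_prod hP l T κ
  -- the orders at almost all tuples
  have e1 : ∀ᶠ R in (U : Filter ℕ), ∀ i j, Ord
      (evU P R (vbU P i (dst (n i)) * vbU P j (dst (n j)))) (if ρ i = ρ j then 1 else 0) := by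
    refine Filter.eventually_all.2 fun i => Filter.eventually_all.2 fun j => ?_
    rw [← h2 i j]
    exact hE _
  have e2 : ∀ᶠ R in (U : Filter ℕ), ∀ i j, ρ i = ρ j → ∀ k, Summable fun p : Pr =>
      ‖(cpol (P R i p)).coeff k - (cpol (P R j p)).coeff k‖ ^ 2 / ((p : ℕ) : ℝ) := by
    refine Filter.eventually_all.2 fun i => Filter.eventually_all.2 fun j => ?_
    by_cases hij : ρ i = ρ j
    · have hnn : n i = n j := by rw [← (h1 i).2, ← (h1 j).2, hij]
      have e3 : ∀ᶠ R in (U : Filter ℕ), ∀ k ∈ Finset.range (2 * n i + 2), Summable fun p : Pr =>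
          ‖(cpol (P R i p)).coeff k - (cpol (P R j p)).coeff k‖ ^ 2 / ((p : ℕ) : ℝ) :=
        (Filter.eventually_all_finset _).2 fun k _ => close_U hP hE hnn (h3 i j hij) k
      filter_upwards [e3] with R hR _ k
      by_cases hk : k < 2 * n i + 2
      · exact hR k (Finset.mem_range.2 hk)
      · have hk1 : 2 * n i + 1 < k := by omega
        have hk2 : 2 * n j + 1 < k := by omega
        have e4 : (fun p : Pr => ‖(cpol (P R i p)).coeff k - (cpol (P R j p)).coeff k‖ ^ 2 /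
            ((p : ℕ) : ℝ)) = fun _ => 0 := by
          funext p
          rw [cpol_coeff_zero _ hk1, cpol_coeff_zero _ hk2, sub_zero, norm_zero]
          simp
        rw [e4]
        exact summable_zero
    · exact Eventually.of_forall fun R h => absurd h hij
  have e5 : ∀ᶠ R in (U : Filter ℕ), ∀ ν ∈ {ν : (i : Fin r) → Dm (n i) | ∀ i j, (ν i).1 j ≤ M},
      Ord (evU P R (∏ i, vbU P i (ν i)))
        (∏ l, mult1 (∏ i with ρ i = l, crs (n l) (chi (ν i)).coeff)) := by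
    refine (Filter.eventually_all_finite (finite_level M)).2 fun ν _ => ?_
    rw [← h4 ν]
    exact hE _
  obtain ⟨R, r1, r2, r3, r4⟩ := (e1.and (e2.and (e5.and (hlarge (M + 1))))).exists
  have hpairs : ∀ i j, i ≠ j → ∀ m : (i : Fin r) → Wt (n i) →₀ ℤ, Irrs (stdWt n i j) m →
      PoleOrderP (P R) m 1 (if ρ i = ρ j then 1 else 0) := by
    intro i j hij m hm
    obtain ⟨ν, hν⟩ := exists_dm hm
    have hm' : Irrs (fun k => (ν k).1) m := by
      intro k
      show IsIrr 0 (ν k).1 (m k)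
      rw [hν k]
      exact hm k
    have e6 := r1 i j
    rw [← prod_std_gen (V := vbU P) (fun i => vbU_one P i) hij ν hν] at e6
    refine pole_of_ord hP R ν hm' (hM R _ m hm fun a b => ?_) e6
    have e8 : stdWt n i j a b ≤ 1 := by
      unfold stdWt
      split_ifs <;> norm_num
    refine e8.trans ?_
    exact_mod_cast (Nat.le_add_left 1 M).trans r4
  obtain ⟨μ, m, hm, hμ, hb⟩ := hbad R ρ h1 hpairs r2
  apply hb
  obtain ⟨ν, hν⟩ := exists_dm hm
  have hm' : Irrs (fun k => (ν k).1) m := by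
    intro k
    show IsIrr 0 (ν k).1 (m k)
    rw [hν k]
    exact hm k
  have hmc : ∀ k, m k = (chi (ν k)).coeff := fun k => (hm' k).unique (chi_irr (ν k))
  have e6 := r3 ν (fun i j => by rw [hν i]; exact hμ i j)
  have e7 : ∏ l, mult1 (∏ i with ρ i = l, crs (n l) (m i)) =
      ∏ l, mult1 (∏ i with ρ i = l, crs (n l) (chi (ν i)).coeff) := by
    refine Finset.prod_congr rfl fun l _ => ?_
    congr 1
    refine Finset.prod_congr rfl fun i _ => ?_
    rw [hmc i]
  rw [e7]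
  refine pole_of_ord hP R ν hm' (hM R μ m hm fun i j => (hμ i j).trans ?_) e6
  exact_mod_cast (Nat.le_succ M).trans r4

end Pool.Agent.EEAP
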