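import Pool.Agent.W_eea520p_h56.Main
import Pool.Agent.W_eea520p_h89.JDefs

/-!
# The joint law of a tuple of systems (MP_eea520_nt, theorem P)
-/

set_option autoImplicit false

namespace Pool.Agent.EEAP

open Filter Topology Pool.Agent.EEA520 Pool.Agent.EEAN Pool.Agent.EEAG1

section weights

theorem tw_self {n : ℕ} (w : Wt n) : tw n w = w := by
  refine Prod.ext rfl ?_
  funext j
  show (if h : (j : ℕ) < n then w.2 ⟨j, h⟩ else 0) = w.2 j
  rw [dif_pos j.2]

theorem crs_self {n : ℕ} (m : Wt n →₀ ℤ) : crs n m = AddMonoidAlgebra.ofCoeff m := by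
  have h : (tw n : Wt n → Wt n) = id := funext tw_self
  rw [crs, h, Finsupp.mapDomain_id]

/-- The dominant weight `ν` with `N` coordinates. -/
def cd (N : ℕ) {n : ℕ} (ν : Dm n) : Dm N :=
  ⟨fun j => if h : (j : ℕ) < n then ν.1 ⟨j, h⟩ else 0, by
    refine ⟨fun a c hac => ?_, fun j => ?_⟩
    · have hac' : (a : ℕ) ≤ c := hac
      show (if h : (c : ℕ) < n then ν.1 ⟨c, h⟩ else 0) ≤ if h : (a : ℕ) < n then ν.1 ⟨a, h⟩ else 0
      by_cases h1 : (c : ℕ) < n
      · rw [dif_pos h1, dif_pos (lt_of_le_of_lt hac' h1)]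
        exact ν.2.1 (show (⟨a, lt_of_le_of_lt hac' h1⟩ : Fin n) ≤ ⟨c, h1⟩ from hac')
      · rw [dif_neg h1]
        split_ifs
        · exact ν.2.2 _
        · exact le_rfl
    · show 0 ≤ if h : (j : ℕ) < n then ν.1 ⟨j, h⟩ else 0
      split_ifs
      · exact ν.2.2 _
      · exact le_rfl⟩

theorem cd_self {n : ℕ} (ν : Dm n) : cd n ν = ν := by
  refine Subtype.ext ?_
  funext j
  show (if h : (j : ℕ) < n then ν.1 ⟨j, h⟩ else 0) = ν.1 j
  rw [dif_pos j.2]

theorem cd_dst {n m : ℕ} (h : n = m) : cd m (dst n) = dst m := by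
  subst h
  exact cd_self _

theorem crs_chi {n m : ℕ} (h : n = m) (ν : Dm n) : crs m (chi ν).coeff = chi (cd m ν) := by
  subst h
  rw [crs_self, cd_self]

theorem mult1_eq {n : ℕ} (f : R n) : mult1 f = mult f 0 := by
  have h0 : al (0 : Fin n → ℤ) = alt 1 (fun j : Fin n => (n : ℤ) - j) := by
    rw [al]
    congr 1
    funext j
    show (0 : ℤ) + ((n : ℤ) - (j : ℕ)) = (n : ℤ) - (j : ℕ)
    rw [zero_add]
  have h1 : ((1 : ℤ), shf (0 : Fin n → ℤ)) = rho n := by
    refine Prod.ext rfl ?_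
    funext j
    show (0 : ℤ) + ((n : ℤ) - (j : ℕ)) = (n : ℤ) - (j : ℕ)
    rw [zero_add]
  rw [mult1, mult, h0, h1]

theorem mult1_one {n : ℕ} : mult1 (1 : R n) = 1 := by
  rw [mult1_eq, ← chi_zero (dz n) rfl]
  have h := mult_chi (dz n) (dz n)
  rw [if_pos rfl] at h
  exact h

theorem inv0_prod {ι : Type} {n : ℕ} (T : Finset ι) (κ : ι → Dm n) :
    Inv0 (∏ i ∈ T, chi (κ i)) := by
  classical
  induction T using Finset.induction_on with
  | empty =>
    rw [Finset.prod_empty, ← chi_zero (dz n) rfl]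
    exact chi_inv0 _
  | insert a T ha ih =>
    rw [Finset.prod_insert ha]
    exact (chi_inv0 _).mul ih

theorem vf_prod {ι : Type} {n : ℕ} {π : GSys n} (hπ : Tempered π) (T : Finset ι) (κ : ι → Dm n) :
    vf π (∏ i ∈ T, chi (κ i)) = ∏ i ∈ T, vf π (chi (κ i)) := by
  classical
  induction T using Finset.induction_on with
  | empty => rw [Finset.prod_empty, Finset.prod_empty, vf_one]
  | insert a T ha ih =>
    rw [Finset.prod_insert ha, Finset.prod_insert ha, vf_mul hπ (chi_inv0 _) (inv0_prod T κ), ih]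

end weights

section values

variable {r : ℕ} {n : Fin r → ℕ}

theorem vb_prod {ι : Type} {π : (i : Fin r) → GSys (n i)} (hπ : ∀ i, Tempered (π i)) (l : Fin r)
    (T : Finset ι) (κ : ι → Dm (n l)) :
    ∏ i ∈ T, vb π l (κ i) = (dec (∏ i ∈ T, chi (κ i))).sum fun μ a => a • vb π l μ := by
  apply Subtype.ext
  have h1 : (((dec (∏ i ∈ T, chi (κ i))).sum fun μ a => a • vb π l μ : BB π) : Pr → ℝ) =
      (dec (∏ i ∈ T, chi (κ i))).sum fun μ a => a • vf (π l) (chi μ) := by
    have h2 := map_finsuppSum (BB π).subtype (dec (∏ i ∈ T, chi (κ i))) fun μ a => a • vb π l μ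
    rw [Subring.coe_subtype] at h2
    rw [h2]
    refine Finsupp.sum_congr fun μ _ => ?_
    rfl
  have h3 : ((∏ i ∈ T, vb π l (κ i) : BB π) : Pr → ℝ) = ∏ i ∈ T, vf (π l) (chi (κ i)) := by
    rw [← Subring.coe_subtype, map_prod]
    rfl
  rw [h1, h3, ← vf_dec (π l) (inv0_prod T κ), vf_prod (hπ l)]

end values

section abstract_part

variable {B : Type} [CommRing B] {E : B →+ ℤ}

theorem ae_cd {n m : ℕ} (hnm : n = m) (hE : ∀ f, 0 ≤ E (f * f)) (hn : 1 ≤ n) {V : Dm n → B}
    {W : Dm m → B} (hV : Fam E (basDm n) V) (hW : Fam E (basDm m) W)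
    (h : E (V (dst n) * W (dst m)) ≠ 0) (ν : Dm n) : Ae E (V ν) (W (cd m ν)) := by
  subst hnm
  rw [cd_self]
  exact idt_ae hE hn hV hW h ν

variable {r : ℕ} {I : Fin r → Type} {b : ∀ k, Bas (I k)} {V : ∀ k, I k → B}

/-- The families over `S` are independent, so the mean value is multiplicative for elements of the spans
of the families. -/
theorem indep_prod (hV : ∀ k, Fam E (b k) (V k)) (h1 : E 1 = 1) (S : Finset (Fin r))
    (hS : ∀ i : ∀ k, I k, (∀ k, k ∉ S → i k = (b k).z) → i ≠ (fun k => (b k).z) →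
      E (∏ k, V k (i k)) = 0) (c : ∀ k, I k →₀ ℤ) :
    E (∏ k ∈ S, (c k).sum fun i a => a • V k i) = ∏ k ∈ S, c k (b k).z := by
  classical
  let c' : ∀ k, I k →₀ ℤ := fun k => if k ∈ S then c k else Finsupp.single (b k).z 1
  have hc' : ∀ k, k ∈ S → c' k = c k := fun k hk => if_pos hk
  have hc0 : ∀ k, k ∉ S → c' k = Finsupp.single (b k).z 1 := fun k hk => if_neg hk
  have hprod : ∏ k ∈ S, ((c k).sum fun i a => a • V k i) =
      ∏ k, ∑ i ∈ (c' k).support, c' k i • V k i := by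
    rw [← Finset.prod_subset (Finset.subset_univ S) (fun k _ hk => ?_)]
    · refine Finset.prod_congr rfl fun k hk => ?_
      rw [hc' k hk]
      rfl
    · rw [hc0 k hk]
      have h2 : (Finsupp.single (b k).z (1 : ℤ)).sum (fun (i : I k) (a : ℤ) => a • V k i) =
          (1 : ℤ) • V k (b k).z := Finsupp.sum_single_index (by rw [zero_smul])
      show (Finsupp.single (b k).z (1 : ℤ)).sum (fun i a => a • V k i) = 1
      rw [h2, one_smul]
      exact (hV k).one
  have hprod2 : ∏ k ∈ S, c k (b k).z = ∏ k, c' k (b k).z := by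
    rw [← Finset.prod_subset (Finset.subset_univ S) (fun k _ hk => ?_)]
    · refine Finset.prod_congr rfl fun k hk => ?_
      rw [hc' k hk]
    · rw [hc0 k hk, Finsupp.single_eq_same]
  have hterm : ∀ l : ∀ k, I k, E (∏ k, (c' k (l k)) • V k (l k)) =
      (∏ k, c' k (l k)) * E (∏ k, V k (l k)) := by
    intro l
    have h : (∏ k, (c' k (l k)) • V k (l k)) = (∏ k, c' k (l k)) • ∏ k, V k (l k) := by
      simp only [zsmul_eq_mul, Finset.prod_mul_distrib, Int.cast_prod]
    rw [h, map_zsmul, smul_eq_mul]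
  rw [hprod, hprod2, Finset.prod_univ_sum, map_sum, Finset.sum_congr rfl fun l _ => hterm l,
    Finset.sum_eq_single (fun k => (b k).z)]
  · rw [Finset.prod_congr rfl fun k _ => (hV k).one, Finset.prod_const_one, h1, mul_one]
  · intro l hl hne
    rw [hS l (fun k hk => ?_) hne, mul_zero]
    have h2 := (Fintype.mem_piFinset.1 hl) k
    rw [hc0 k hk, Finsupp.mem_support_iff] at h2
    by_contra h3
    exact h2 (Finsupp.single_eq_of_ne h3)
  · intro hl
    have h2 : ∏ k, c' k (b k).z = 0 := by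
      rw [Fintype.mem_piFinset] at hl
      push Not at hl
      obtain ⟨k, hk⟩ := hl
      exact Finset.prod_eq_zero (Finset.mem_univ k) (Finsupp.notMem_support_iff.1 hk)
    rw [h2, zero_mul]

end abstract_part

variable {r : ℕ} {n : Fin r → ℕ}

/-- (D) The joint law. -/
theorem main_D (hn : ∀ i, 1 ≤ n i) {π : (i : Fin r) → GSys (n i)} (hπ : ∀ i, Tempered (π i))
    (hST : ∀ (i : Fin r) (μ : Fin (n i) → ℤ) (m : Wt (n i) →₀ ℤ), IsIrr 0 μ m → μ ≠ 0 →
      PoleOrder (π i) m 1 0)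
    (hM : ∀ (μ : (i : Fin r) → Fin (n i) → ℤ) (m : (i : Fin r) → Wt (n i) →₀ ℤ), Irrs μ m →
      MeroAtP π m 1) :
    ∃ ρ : Fin r → Fin r, (∀ i, ρ (ρ i) = ρ i ∧ n (ρ i) = n i) ∧
      (∀ i j, i ≠ j → ∀ m : (i : Fin r) → Wt (n i) →₀ ℤ, Irrs (stdWt n i j) m →
        PoleOrderP π m 1 (if ρ i = ρ j then 1 else 0)) ∧
      (∀ i j, ρ i = ρ j → ∀ k, Summable fun p : Pr =>
        ‖(cpol (π i p)).coeff k - (cpol (π j p)).coeff k‖ ^ 2 / ((p : ℕ) : ℝ)) ∧
      ∀ (μ : (i : Fin r) → Fin (n i) → ℤ) (m : (i : Fin r) → Wt (n i) →₀ ℤ), Irrs μ m →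
        PoleOrderP π m 1 (∏ l, mult1 (∏ i with ρ i = l, crs (n l) (m i))) := by
  classical
  obtain ⟨E, hE⟩ := exists_E hπ hM
  have hpos := E_nonneg hE
  have h1 := E_one hE
  have hfam := fun k => fam_vb hπ hST hE k
  obtain ⟨S, hS1, hS2⟩ := exists_maximal
    (fun k l => E (vb π k (dst (n k)) * vb π l (dst (n l))) ≠ 0)
    (by
      intro k l h
      rw [mul_comm]
      exact h)
  have hind : ∀ i : ∀ k, Dm (n k), (∀ k, k ∉ S → i k = (basDm (n k)).z) →
      i ≠ (fun k => (basDm (n k)).z) → E (∏ k, vb π k (i k)) = 0 := by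
    intro i hi hne
    refine indep_of_pairs hpos h1 (fun k => pieDm (hn k)) hfam S ?_ i hi hne
    intro k hk l hl hkl
    rw [pieDm_st, pieDm_st]
    exact not_not.1 (hS1 k hk l hl hkl)
  have hrep : ∀ i, ∃ l, l ∈ S ∧ n i = n l ∧
      (∀ ν : Dm (n i), Ae E (vb π i ν) (vb π l (cd (n l) ν))) ∧ (i ∈ S → l = i) := by
    intro i
    by_cases hi : i ∈ S
    · refine ⟨i, hi, rfl, fun ν => ?_, fun _ => rfl⟩
      rw [cd_self]
      exact Ae.refl _
    · obtain ⟨l, hl, hil⟩ := hS2 i hi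
      have hnn : n i = n l := n_eq hpos (hn i) (hn l) (hfam i) (hfam l) hil
      exact ⟨l, hl, hnn, fun ν => ae_cd hnn hpos (hn i) (hfam i) (hfam l) hil ν,
        fun h => absurd h hi⟩
  choose ρ hρS hρn hρA hρid using hrep
  have hval : ∀ i j, E (vb π i (dst (n i)) * vb π j (dst (n j))) = if ρ i = ρ j then 1 else 0 := by
    intro i j
    have h3 := ((hρA i (dst (n i))).mul (hρA j (dst (n j)))).val
    rw [cd_dst (hρn i), cd_dst (hρn j)] at h3
    rw [h3]
    by_cases h : ρ i = ρ j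
    · rw [if_pos h, ← h]
      exact (hfam (ρ i)).mul_self _
    · rw [if_neg h]
      exact not_not.1 (hS1 (ρ i) (hρS i) (ρ j) (hρS j) h)
  refine ⟨ρ, fun i => ⟨hρid (ρ i) (hρS i), (hρn i).symm⟩, ?_, ?_, ?_⟩
  · intro i j hij m hm
    rw [← hval i j]
    exact pair_val hπ hM hE hij hm
  · intro i j hij k
    have hnn : n i = n j := by rw [hρn i, hρn j, hij]
    refine close_of' hnn (hn i) (hπ i) (hπ j) hE hpos (bb_bd hπ)
      (fun μ => rfl) (fun μ => rfl) (hfam i) (hfam j) ?_ k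
    rw [hval i j, if_pos hij]
    exact one_ne_zero
  · intro μ m hm
    obtain ⟨ν, hν⟩ := exists_dm hm
    have hm' : Irrs (fun k => (ν k).1) m := by
      intro k
      show IsIrr 0 (ν k).1 (m k)
      rw [hν k]
      exact hm k
    have hmc : ∀ k, m k = (chi (ν k)).coeff := fun k => (hm' k).unique (chi_irr (ν k))
    have hM' : MeroAtP π m (pt 0) := by
      rw [pt_zero]
      exact hM _ _ hm
    have h := poleOrder_val hπ (t := 0) (Et := E) (fun f => ord_cw_zero hE f) ν hm' hM'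
    rw [pt_zero] at h
    have h2 : E (∏ k, vb π k (ν k)) = E (∏ k, vb π (ρ k) (cd (n (ρ k)) (ν k))) :=
      (Ae.prod Finset.univ fun k _ => hρA k (ν k)).val
    have h3 : ∏ k, vb π (ρ k) (cd (n (ρ k)) (ν k)) =
        ∏ l ∈ S, (dec (∏ k with ρ k = l, chi (cd (n l) (ν k)))).sum fun κ a => a • vb π l κ := by
      rw [← Finset.prod_fiberwise_of_maps_to (s := Finset.univ) (t := S) (g := ρ)
        (fun k _ => hρS k)]
      refine Finset.prod_congr rfl fun l _ => ?_
      rw [← vb_prod hπ l]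
      refine Finset.prod_congr rfl fun k hk => ?_
      rw [(Finset.mem_filter.1 hk).2]
    have h4 : E (∏ k, vb π k (ν k)) = ∏ l, mult1 (∏ i with ρ i = l, crs (n l) (m i)) := by
      rw [h2, h3, indep_prod hfam h1 S hind fun l => dec (∏ k with ρ k = l, chi (cd (n l) (ν k))),
        ← Finset.prod_subset (Finset.subset_univ S) (fun l _ hl => ?_)]
      · refine Finset.prod_congr rfl fun l _ => ?_
        have h5 : ∏ i with ρ i = l, crs (n l) (m i) = ∏ k with ρ k = l, chi (cd (n l) (ν k)) := by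
          refine Finset.prod_congr rfl fun k hk => ?_
          have hk' : n k = n l := by rw [hρn k, (Finset.mem_filter.1 hk).2]
          rw [hmc k, crs_chi hk']
        rw [h5, mult1_eq, basDm_z, dec_apply (inv0_prod _ _)]
        rfl
      · have h6 : (Finset.univ.filter fun k => ρ k = l) = ∅ :=
          Finset.filter_false_of_mem fun k _ hk => hl (by rw [← hk]; exact hρS k)
        rw [h6, Finset.prod_empty, mult1_one]
    rw [h4] at h
    exact h

end Pool.Agent.EEAP
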