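import Pool.Agent.W_eea520p_h89.JFin
import Pool.Agent.W_eea520p_h89.JU

/-!
# All the irreducible representations of the L-groups, with finitely many Euler products (MP_eea520_nt)
-/

set_option autoImplicit false

namespace Pool.Agent.EEAP

open Filter Topology Pool.Agent.EEA520 Pool.Agent.EEAN Pool.Agent.EEAG1

section weights

variable {n : ℕ}

/-- The weights of an irreducible representation of `GSpin_{2n+1}`. -/
theorem ju_bd1 {k : ℤ} {μ : Fin n → ℤ} {m : Wt n →₀ ℤ} (h : IsIrr k μ m) {L : ℤ}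
    (hL : ∀ i, 2 * μ i - k ≤ L) {w : Wt n} (hw : m w ≠ 0) (i : Fin n) : 2 * w.2 i - k ≤ L := by
  classical
  obtain ⟨h1, h2, h3⟩ := h
  have hD : (alt 1 fun j : Fin n => (n : ℤ) - j).coeff
      ((1, fun j : Fin n => (n : ℤ) - j) : Wt n) = 1 := by
    refine (top_alt _ _ (fun i j hij => ?_) fun i => ?_).1
    · have h4 : (i : ℕ) < (j : ℕ) := hij
      show (n : ℤ) - (j : ℕ) < (n : ℤ) - (i : ℕ)
      omega
    · have := i.2
      omega
  have hw' : (AddMonoidAlgebra.ofCoeff m : R n).coeff w ≠ 0 := hw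
  have hn : 0 < n := i.pos
  have hg0 : ∃ d : Wt n, (alt 1 fun j : Fin n => (n : ℤ) - j).coeff d ≠ 0 ∧ d.2 i = n := by
    refine ⟨act (Equiv.swap ⟨0, hn⟩ i, ∅) (1, fun j : Fin n => (n : ℤ) - j), ?_, ?_⟩
    · rw [alt_act, hD, mul_one]
      unfold sgn
      refine mul_ne_zero ?_ (pow_ne_zero _ (by norm_num))
      exact_mod_cast Units.ne_zero _
    · have h5 : (act ((Equiv.swap ⟨0, hn⟩ i, ∅) : WG n)
          ((1, fun j : Fin n => (n : ℤ) - j) : Wt n)).2 i =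
            (n : ℤ) - ((Equiv.swap ⟨0, hn⟩ i i : Fin n) : ℕ) := by
        rw [act_apply]
        simp
      rw [h5, Equiv.swap_apply_right]
      simp
  obtain ⟨d, hd, hdi⟩ := hg0
  let φ : Wt n →+ ℤ := (Pi.evalAddMonoidHom (fun _ : Fin n => ℤ) i).comp
    (AddMonoidHom.snd ℤ (Fin n → ℤ))
  have k1 := B3a_top (φ + φ) (f := AddMonoidAlgebra.ofCoeff m)
    (g := alt 1 fun j : Fin n => (n : ℤ) - j) (c := L + k + 2 * n) (by
      intro u hu
      rw [h3] at hu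
      obtain ⟨g, hg⟩ := B3a_alt hu
      rw [← hg]
      show (if i ∈ g.2 then (k + 1) - (μ (g.1 i) + ((n : ℤ) - ((g.1 i : Fin n) : ℕ)))
          else μ (g.1 i) + ((n : ℤ) - ((g.1 i : Fin n) : ℕ))) +
        (if i ∈ g.2 then (k + 1) - (μ (g.1 i) + ((n : ℤ) - ((g.1 i : Fin n) : ℕ)))
          else μ (g.1 i) + ((n : ℤ) - ((g.1 i : Fin n) : ℕ))) ≤ L + k + 2 * n
      have h6 := hL (g.1 i)
      have h7 := h2 (g.1 i)
      have h8 := (g.1 i).2
      split_ifs <;> omega) hw' hd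
  have k2 : (w.2 i + w.2 i) + (d.2 i + d.2 i) ≤ L + k + 2 * n := k1
  rw [hdi] at k2
  omega

theorem ju_bd2 {k : ℤ} {μ : Fin n → ℤ} {m : Wt n →₀ ℤ} (h : IsIrr k μ m) {L : ℤ}
    (hL : ∀ i, 2 * μ i - k ≤ L) {w : Wt n} (hw : m w ≠ 0) (i : Fin n) : -L ≤ 2 * w.2 i - k := by
  classical
  have hk := ju_fst h hw
  have h1 : m (act (1, Finset.univ) w) ≠ 0 := by
    rw [h.isCharacter.act]
    exact hw
  have h2 := ju_bd1 h hL h1 i
  have h3 : (act ((1, Finset.univ) : WG n) w).2 i = k - w.2 i := by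
    show (if i ∈ (Finset.univ : Finset (Fin n)) then
      w.1 - w.2 ((1 : Equiv.Perm (Fin n)) i) else w.2 ((1 : Equiv.Perm (Fin n)) i)) = _
    rw [if_pos (Finset.mem_univ i), Equiv.Perm.one_apply, hk]
  rw [h3] at h2
  omega

theorem sqR_bd {k : ℤ} {μ : Fin n → ℤ} {m : Wt n →₀ ℤ} (h : IsIrr k μ m) {L : ℤ}
    (hL : ∀ i, 2 * μ i - k ≤ L) {u : Wt n} (hu : (sqR k m).coeff u ≠ 0) (i : Fin n) :
    u.2 i ≤ L := by
  obtain ⟨a, b, ha, hb, rfl⟩ := B3a_exists hu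
  have hb' : m (-b) ≠ 0 := by
    have h1 := ju_dual h (-b)
    rw [neg_neg] at h1
    rw [h1] at hb
    exact hb
  have h1 := ju_bd1 h hL ha i
  have h2 := ju_bd2 h hL hb' i
  have h3 : (-b).2 i = -b.2 i := rfl
  show a.2 i + b.2 i ≤ L
  rw [h3] at h2
  omega

theorem mul_bd {F G : R n} {L L' : ℤ} (hF : ∀ u : Wt n, F.coeff u ≠ 0 → ∀ i, u.2 i ≤ L)
    (hG : ∀ u : Wt n, G.coeff u ≠ 0 → ∀ i, u.2 i ≤ L') {u : Wt n} (hu : (F * G).coeff u ≠ 0)
    (i : Fin n) : u.2 i ≤ L + L' := by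
  obtain ⟨a, b, ha, hb, rfl⟩ := B3a_exists hu
  show a.2 i + b.2 i ≤ L + L'
  exact add_le_add (hF a ha i) (hG b hb i)

theorem dec_bd {F : R n} (hF : Inv0 F) {L : ℤ} (hL : ∀ u : Wt n, F.coeff u ≠ 0 → ∀ i, u.2 i ≤ L)
    {κ : Dm n} (hκ : dec F κ ≠ 0) (i : Fin n) : κ.1 i ≤ L := by
  rw [dec_apply hF] at hκ
  unfold mult al at hκ
  obtain ⟨a, b, ha, hb, hab⟩ := B3a_exists hκ
  obtain ⟨g, hg⟩ := B3a_alt hb
  have hn : 0 < n := i.pos
  have h1 : κ.1 i ≤ κ.1 ⟨0, hn⟩ := κ.2.1 (show (⟨0, hn⟩ : Fin n) ≤ i from Nat.zero_le _)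
  have h2 : a.2 ⟨0, hn⟩ + b.2 ⟨0, hn⟩ = κ.1 ⟨0, hn⟩ + ((n : ℤ) - ((⟨0, hn⟩ : Fin n) : ℕ)) :=
    congrFun (congrArg Prod.snd hab) ⟨0, hn⟩
  have h3 : b.2 ⟨0, hn⟩ = if (⟨0, hn⟩ : Fin n) ∈ g.2 then
      1 - (0 + ((n : ℤ) - ((g.1 ⟨0, hn⟩ : Fin n) : ℕ))) else
      0 + ((n : ℤ) - ((g.1 ⟨0, hn⟩ : Fin n) : ℕ)) := by
    rw [← hg]
    rfl
  have h4 := (g.1 ⟨0, hn⟩).2
  have h5 := hL a ha ⟨0, hn⟩
  have h6 : b.2 ⟨0, hn⟩ ≤ n := by
    rw [h3]
    split_ifs <;> omega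
  have h7 : (((⟨0, hn⟩ : Fin n) : ℕ) : ℤ) = 0 := rfl
  omega

theorem cd_dz {n m : ℕ} (h : n = m) : cd m (dz n) = dz m := by
  subst h
  exact cd_self _

theorem cd_ne {n m : ℕ} (h : n = m) {ν : Dm n} (hν : ν ≠ dz n) : cd m ν ≠ dz m := by
  subst h
  rw [cd_self]
  exact hν

end weights

section order

variable {r : ℕ} {n : Fin r → ℕ}

/-- The orders for the tuples with nontrivial entries in different classes. -/
theorem val_delta {ρ : Fin r → Fin r} (hρ : ∀ i, n (ρ i) = n i) {T : Finset (Fin r)}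
    (hT : ∀ i ∈ T, ∀ j ∈ T, ρ i = ρ j → i = j) (ν : (i : Fin r) → Dm (n i))
    (hν : ∀ i, i ∉ T → ν i = dz (n i)) (hne : ν ≠ fun i => dz (n i)) :
    ∏ l, mult1 (∏ i with ρ i = l, crs (n l) (chi (ν i)).coeff) = 0 := by
  classical
  obtain ⟨i₀, hi₀⟩ : ∃ i, ν i ≠ dz (n i) := by
    by_contra h
    push Not at h
    exact hne (funext h)
  have hi₀T : i₀ ∈ T := by
    by_contra h
    exact hi₀ (hν i₀ h)
  refine Finset.prod_eq_zero (Finset.mem_univ (ρ i₀)) ?_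
  have h1 : ∏ i with ρ i = ρ i₀, crs (n (ρ i₀)) (chi (ν i)).coeff =
      crs (n (ρ i₀)) (chi (ν i₀)).coeff := by
    refine Finset.prod_eq_single i₀ (fun i hi hne => ?_) fun h => ?_
    · have h2 : ρ i = ρ i₀ := (Finset.mem_filter.1 hi).2
      have h3 : i ∉ T := fun h => hne (hT i h i₀ hi₀T h2)
      have h4 : n i = n (ρ i₀) := by rw [← h2, hρ i]
      rw [hν i h3, crs_chi h4, cd_dz h4, chi_zero (dz _) rfl]
    · exact absurd (Finset.mem_filter.2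
        (⟨Finset.mem_univ i₀, rfl⟩ : i₀ ∈ Finset.univ ∧ ρ i₀ = ρ i₀)) h
  rw [h1, crs_chi (hρ i₀).symm, mult1_eq]
  have h2 := mult_chi (cd (n (ρ i₀)) (ν i₀)) (dz (n (ρ i₀)))
  rw [if_neg fun h => cd_ne (hρ i₀).symm hi₀ h.symm] at h2
  exact h2

theorem val_one {ρ : Fin r → Fin r} (hρ : ∀ i, n (ρ i) = n i) :
    ∏ l, mult1 (∏ i with ρ i = l, crs (n l) (chi (dz (n i))).coeff) = 1 := by
  classical
  refine Finset.prod_eq_one fun l _ => ?_
  have h1 : ∏ i with ρ i = l, crs (n l) (chi (dz (n i))).coeff = 1 := by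
    refine Finset.prod_eq_one fun i hi => ?_
    have h4 : n i = n l := by rw [← (Finset.mem_filter.1 hi).2, hρ i]
    rw [crs_chi h4, cd_dz h4, chi_zero (dz _) rfl]
  rw [h1, mult1_one]

/-- The mean value of a product of virtual characters of bounded level. -/
theorem mean_prod {π : (i : Fin r) → GSys (n i)} (hπ : ∀ i, Tempered (π i)) {L : ℤ}
    {v : ((i : Fin r) → Dm (n i)) → ℤ} {T : Finset (Fin r)}
    (hv : ∀ ν : (i : Fin r) → Dm (n i), (∀ i j, (ν i).1 j ≤ L) →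
      MeanP (∏ i, vb π i (ν i) : BB π).1 (v ν))
    (hL0 : 0 ≤ L) (hv0 : ∀ ν : (i : Fin r) → Dm (n i), (∀ i, i ∉ T → ν i = dz (n i)) →
      (ν ≠ fun i => dz (n i)) → v ν = 0) (hv1 : v (fun i => dz (n i)) = 1)
    (c : ∀ k, Dm (n k) →₀ ℤ) (hc : ∀ k κ, c k κ ≠ 0 → ∀ j, κ.1 j ≤ L) :
    MeanP ((∏ k ∈ T, (c k).sum fun κ a => a • vb π k κ : BB π) : Pr → ℝ)
      ((∏ k ∈ T, c k (dz (n k)) : ℤ) : ℝ) := by
  classical
  let c' : ∀ k, Dm (n k) →₀ ℤ := fun k => if k ∈ T then c k else Finsupp.single (dz (n k)) 1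
  have hc' : ∀ k, k ∈ T → c' k = c k := fun k hk => if_pos hk
  have hc0 : ∀ k, k ∉ T → c' k = Finsupp.single (dz (n k)) 1 := fun k hk => if_neg hk
  have hprod : ∏ k ∈ T, ((c k).sum fun κ a => a • vb π k κ) =
      ∏ k, ∑ κ ∈ (c' k).support, c' k κ • vb π k κ := by
    rw [← Finset.prod_subset (Finset.subset_univ T) (fun k _ hk => ?_)]
    · refine Finset.prod_congr rfl fun k hk => ?_
      rw [hc' k hk]
      rfl
    · rw [hc0 k hk]
      have h2 : (Finsupp.single (dz (n k)) (1 : ℤ)).sum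
          (fun (κ : Dm (n k)) (a : ℤ) => a • vb π k κ) = (1 : ℤ) • vb π k (dz (n k)) :=
        Finsupp.sum_single_index (by rw [zero_smul])
      show (Finsupp.single (dz (n k)) (1 : ℤ)).sum (fun κ a => a • vb π k κ) = 1
      rw [h2, one_smul, ← basDm_z]
      exact vb_one π k
  have hprod2 : ∏ k ∈ T, c k (dz (n k)) = ∏ k, c' k (dz (n k)) := by
    rw [← Finset.prod_subset (Finset.subset_univ T) (fun k _ hk => ?_)]
    · refine Finset.prod_congr rfl fun k hk => ?_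
      rw [hc' k hk]
    · rw [hc0 k hk, Finsupp.single_eq_same]
  have hfun : ((∏ k, ∑ κ ∈ (c' k).support, c' k κ • vb π k κ : BB π) : Pr → ℝ) =
      fun p => ∑ l ∈ Fintype.piFinset fun k => (c' k).support,
        ((∏ k, c' k (l k) : ℤ) : ℝ) * (∏ k, vb π k (l k) : BB π).1 p := by
    funext p
    rw [Finset.prod_univ_sum]
    have h1 : ∀ l : ∀ k, Dm (n k), (∏ k, (c' k (l k)) • vb π k (l k)) =
        (∏ k, c' k (l k)) • ∏ k, vb π k (l k) := by
      intro l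
      simp only [zsmul_eq_mul, Finset.prod_mul_distrib, Int.cast_prod]
    simp only [h1]
    rw [← Subring.coe_subtype, map_sum, Finset.sum_apply]
    refine Finset.sum_congr rfl fun l _ => ?_
    rw [map_zsmul, Pi.smul_apply, zsmul_eq_mul]
  have hmem : ∀ l ∈ Fintype.piFinset fun k => (c' k).support, ∀ i j, (l i).1 j ≤ L := by
    intro l hl i j
    have h1 := (Fintype.mem_piFinset.1 hl) i
    by_cases hi : i ∈ T
    · rw [hc' i hi, Finsupp.mem_support_iff] at h1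
      exact hc i _ h1 j
    · rw [hc0 i hi, Finsupp.mem_support_iff] at h1
      have h2 : l i = dz (n i) := by
        by_contra h3
        exact h1 (Finsupp.single_eq_of_ne h3)
      rw [h2]
      exact hL0
  have hsum : MeanP (fun p => ∑ l ∈ Fintype.piFinset fun k => (c' k).support,
        ((∏ k, c' k (l k) : ℤ) : ℝ) * (∏ k, vb π k (l k) : BB π).1 p)
      (∑ l ∈ Fintype.piFinset fun k => (c' k).support, ((∏ k, c' k (l k) : ℤ) : ℝ) * (v l : ℝ)) :=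
    MeanP.sum _ (fun l _ => (bb_bd hπ _).const_mul _) fun l hl => (hv l (hmem l hl)).const_mul _
  have hval : (∑ l ∈ Fintype.piFinset fun k => (c' k).support,
      ((∏ k, c' k (l k) : ℤ) : ℝ) * (v l : ℝ)) = ((∏ k, c' k (dz (n k)) : ℤ) : ℝ) := by
    rw [Finset.sum_eq_single (fun k => dz (n k))]
    · rw [hv1, Int.cast_one, mul_one]
    · intro l hl hne
      rw [hv0 l (fun k hk => ?_) hne, Int.cast_zero, mul_zero]
      have h2 := (Fintype.mem_piFinset.1 hl) k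
      rw [hc0 k hk, Finsupp.mem_support_iff] at h2
      by_contra h3
      exact h2 (Finsupp.single_eq_of_ne h3)
    · intro hl
      have h2 : ∏ k, c' k (dz (n k)) = 0 := by
        rw [Fintype.mem_piFinset] at hl
        push Not at hl
        obtain ⟨k, hk⟩ := hl
        exact Finset.prod_eq_zero (Finset.mem_univ k) (Finsupp.notMem_support_iff.1 hk)
      rw [h2, Int.cast_zero, zero_mul]
  rw [hprod, hprod2, hfun, ← hval]
  exact hsum

/-- The last step: means and the order. -/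
theorem order_zero {b g : Pr → ℝ} {B : ℝ} {Q a : ℤ} (hb : BdP b) (hbb : BdP fun p => b p * b p)
    (m1 : MeanP b 1) (m2 : MeanP (fun p => b p * b p) Q) (hQ : 2 ≤ Q)
    (hg : MeanP g a) (hgb : ∀ p, g p ^ 2 ≤ b p) (hB : ∀ p, b p ≤ B) : a = 0 := by
  have hBg : BdP g := by
    refine ⟨1 + B, fun p => ?_⟩
    have h2 := hgb p
    have h3 := hB p
    rw [abs_le]
    constructor <;> nlinarith [sq_nonneg (g p - 1), sq_nonneg (g p + 1)]
  have hB0 : 0 ≤ B := by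
    let p : Pr := ⟨2, Nat.prime_two⟩
    exact ((sq_nonneg _).trans (hgb p)).trans (hB p)
  obtain ⟨N, hN⟩ : ∃ N : ℝ, N = 4 * (1 + B) := ⟨_, rfl⟩
  have key : ∀ x : ℝ, x ^ 2 = 1 → 2 * N * (x * a) ≤ 2 * N - 2 := by
    intro x hx
    have n1 : MeanP (fun _ => (N - 2) * 1) ((N - 2) * 1) := MeanP.one.const_mul _
    have n2 : MeanP (fun p => (N + 4) * b p) ((N + 4) * 1) := m1.const_mul _
    have n3 : MeanP (fun p => (-2) * (b p * b p)) ((-2) * (Q : ℝ)) := m2.const_mul _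
    have n4 : MeanP (fun p => (-(2 * N * x)) * g p) ((-(2 * N * x)) * (a : ℝ)) :=
      hg.const_mul _
    have b1 : BdP fun _ : Pr => (N - 2) * (1 : ℝ) := ⟨|(N - 2) * 1|, fun _ => le_rfl⟩
    have b2 : BdP fun p => (N + 4) * b p := hb.const_mul _
    have b3 : BdP fun p => (-2) * (b p * b p) := hbb.const_mul _
    have b4 : BdP fun p => (-(2 * N * x)) * g p := hBg.const_mul _
    have m5 := MeanP.add ((b1.add b2).add b3) b4 (MeanP.add (b1.add b2) b3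
      (MeanP.add b1 b2 n1 n2) n3) n4
    have m6 := m5.nonneg fun p => by
      have h2 : (x * g p) ^ 2 ≤ b p := by
        rw [mul_pow, hx, one_mul]
        exact hgb p
      have h3 := pt_ineq h2 (hB p) hN.ge
      linarith
    have h4 : (2 : ℝ) ≤ (Q : ℝ) := by exact_mod_cast hQ
    linarith
  have k1 := key 1 (by norm_num)
  have k2 := key (-1) (by norm_num)
  have hN4 : 4 ≤ N := by linarith
  by_contra h
  rcases lt_or_gt_of_ne h with h2 | h2
  · have h3 : (a : ℝ) ≤ -1 := by exact_mod_cast (by omega : a ≤ -1)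
    nlinarith
  · have h3 : (1 : ℝ) ≤ a := by exact_mod_cast (by omega : 1 ≤ a)
    nlinarith

/-- (U) with finitely many Euler products. -/
theorem level_U {π : (i : Fin r) → GSys (n i)} (hπ : ∀ i, Tempered (π i)) {M : ℕ}
    {ρ : Fin r → Fin r} (hρ : ∀ i, n (ρ i) = n i)
    (hlaw : ∀ (μ : (i : Fin r) → Fin (n i) → ℤ) (m : (i : Fin r) → Wt (n i) →₀ ℤ), Irrs μ m →
      (∀ i j, μ i j ≤ ((2 * M : ℕ) : ℤ)) →
      PoleOrderP π m 1 (∏ l, mult1 (∏ i with ρ i = l, crs (n l) (m i))))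
    {k : Fin r → ℤ} {μ : (i : Fin r) → Fin (n i) → ℤ} {m : (i : Fin r) → Wt (n i) →₀ ℤ}
    (hm : ∀ i, IsIrr (k i) (μ i) (m i)) (hM : ∀ i a, 2 * μ i a - k i ≤ M)
    (hinj : ∀ i j, i ≠ j → ρ i = ρ j → (∀ a, 2 * μ i a = k i) ∨ ∀ a, 2 * μ j a = k j)
    (hne : ∃ i, ¬ ∀ a, 2 * μ i a = k i) {e : Pr → ℂ} (he : ∀ p, ‖e p‖ = 1)
    (hMe : MeroAtT π m e) : PoleOrderT π m e 0 := by
  classical
  set T : Finset (Fin r) := Finset.univ.filter fun i => ¬ ∀ a, 2 * μ i a = k i with hT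
  have hTi : ∀ i ∈ T, ∀ j ∈ T, ρ i = ρ j → i = j := by
    intro i hi j hj h
    by_contra hij
    rcases hinj i j hij h with h4 | h4
    · exact (Finset.mem_filter.1 hi).2 h4
    · exact (Finset.mem_filter.1 hj).2 h4
  have hv : ∀ ν : (i : Fin r) → Dm (n i), (∀ i j, (ν i).1 j ≤ (2 * M : ℤ)) →
      MeanP (∏ i, vb π i (ν i) : BB π).1
        ((∏ l, mult1 (∏ i with ρ i = l, crs (n l) (chi (ν i)).coeff) : ℤ) : ℝ) := by
    intro ν hν
    have h1 := hlaw (fun i => (ν i).1) (fun i => (chi (ν i)).coeff) (fun i => chi_irr (ν i))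
      (fun i j => by
        have := hν i j
        push_cast
        exact this)
    rw [← pt_zero] at h1
    have h2 := ord_of_poleOrderP hπ (AnF_trc hπ ν fun i => chi_irr (ν i)) h1
    have h3 : (fun p => (∏ i, vb π i (ν i) : BB π).1 p * cw 0 p) =
        (∏ i, vb π i (ν i) : BB π).1 := by
      funext p
      rw [cw_zero, mul_one]
    rw [h3] at h2
    exact h2.meanP
  have hI : ∀ i, Inv0 (sqR (k i) (m i)) := fun i => sqR_inv0 (hm i)
  have hbd : ∀ i, ∀ u : Wt (n i), (sqR (k i) (m i)).coeff u ≠ 0 → ∀ j, u.2 j ≤ (M : ℤ) :=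
    fun i u hu j => sqR_bd (hm i) (hM i) hu j
  have hbd2 : ∀ i, ∀ u : Wt (n i), (sqR (k i) (m i) * sqR (k i) (m i)).coeff u ≠ 0 →
      ∀ j, u.2 j ≤ (2 * M : ℤ) := fun i u hu j => by
    have h1 := mul_bd (hbd i) (hbd i) hu j
    omega
  set b : BB π := ∏ i ∈ T, fb π i (sqR (k i) (m i)) with hb
  have hM0 : (0 : ℤ) ≤ 2 * M := by positivity
  have hEb : MeanP (b : Pr → ℝ) 1 := by
    have h2 := mean_prod hπ (T := T) hv hM0 (fun ν h h' => val_delta hρ hTi ν h h') (val_one hρ)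
      (fun i => dec (sqR (k i) (m i))) (fun i κ hκ j => by
        have h3 := dec_bd (hI i) (hbd i) hκ j
        omega)
    have h3 : (∏ i ∈ T, dec (sqR (k i) (m i)) (dz (n i)) : ℤ) = 1 := by
      refine Finset.prod_eq_one fun i _ => ?_
      rw [dec_apply (hI i)]
      exact sqR_mult (hm i)
    rw [h3, Int.cast_one] at h2
    exact h2
  obtain ⟨Q, hQ, hEbb⟩ : ∃ Q : ℤ, 2 ≤ Q ∧ MeanP ((b * b : BB π) : Pr → ℝ) Q := by
    have h2 := mean_prod hπ (T := T) hv hM0 (fun ν h h' => val_delta hρ hTi ν h h') (val_one hρ)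
      (fun i => dec (sqR (k i) (m i) * sqR (k i) (m i))) (fun i κ hκ j =>
        dec_bd ((hI i).mul (hI i)) (hbd2 i) hκ j)
    have h3 : b * b = ∏ i ∈ T, fb π i (sqR (k i) (m i) * sqR (k i) (m i)) := by
      rw [hb, ← Finset.prod_mul_distrib]
      exact Finset.prod_congr rfl fun i _ => fb_mul hπ i (hI i) (hI i)
    have h5 : ∀ i ∈ T, 2 ≤ dec (sqR (k i) (m i) * sqR (k i) (m i)) (dz (n i)) := by
      intro i hi
      rw [dec_apply ((hI i).mul (hI i))]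
      exact two_le_mult (hI i) (sqR_mult (hm i)) (sqR_ne (hm i) (Finset.mem_filter.1 hi).2)
    refine ⟨_, ?_, by rw [h3]; exact h2⟩
    obtain ⟨i₀, hi₀⟩ := hne
    have hi₀T : i₀ ∈ T := Finset.mem_filter.2 ⟨Finset.mem_univ _, hi₀⟩
    rw [← Finset.mul_prod_erase T _ hi₀T]
    have h6 : 1 ≤ ∏ i ∈ T.erase i₀,
        dec (sqR (k i) (m i) * sqR (k i) (m i)) (dz (n i)) := by
      refine Finset.prod_induction _ (fun x : ℤ => 1 ≤ x) (fun x y hx hy => ?_) le_rfl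
        fun i hi => ?_
      · nlinarith
      · exact one_le_two.trans (h5 i (Finset.mem_of_mem_erase hi))
    have h7 := h5 i₀ hi₀T
    nlinarith
  have hval : ∀ p, (b : Pr → ℝ) p = ‖∏ i, trc (π i) (m i) p‖ ^ 2 := by
    intro p
    have h2 : (b : Pr → ℝ) = ∏ i ∈ T, vf (π i) (sqR (k i) (m i)) := by
      rw [hb, ← Subring.coe_subtype, map_prod]
      refine Finset.prod_congr rfl fun i _ => ?_
      exact fb_coe π i (hI i)
    rw [h2, Finset.prod_apply, norm_prod, ← Finset.prod_pow,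
      ← Finset.prod_subset (Finset.subset_univ T) (fun i _ hi => ?_)]
    · exact Finset.prod_congr rfl fun i _ => sqR_val (hπ i) (hm i) p
    · have h3 : ∀ a, 2 * μ i a = k i := by
        by_contra h4
        exact hi (Finset.mem_filter.2 ⟨Finset.mem_univ _, h4⟩)
      rw [irr_dim_one (hπ i) (hm i) h3, one_pow]
  obtain ⟨a, ha⟩ := exists_poleOrderT hπ he hMe
  have hg := ord_of_poleOrderT' hπ he ha
  obtain ⟨B, hB⟩ := bb_bd hπ b
  have ha0 : a = 0 := order_zero (bb_bd hπ b) (bb_bd hπ (b * b)) hEb hEbb hQ hg.meanP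
    (fun p => by
      rw [hval p, ← sq_abs]
      have h2 : |(e p * ∏ i, trc (π i) (m i) p).re| ≤ ‖∏ i, trc (π i) (m i) p‖ := by
        refine (Complex.abs_re_le_norm _).trans ?_
        rw [norm_mul, he p, one_mul]
      exact pow_le_pow_left₀ (abs_nonneg _) h2 2)
    (fun p => (le_abs_self _).trans (hB p))
  rw [ha0] at ha
  exact ha

/-- (A) with all the irreducible representations of the L-groups. -/
theorem fin_law_U (hn : ∀ i, 1 ≤ n i) (M : ℕ) : ∃ R : ℕ, ∀ π : (i : Fin r) → GSys (n i),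
    (∀ i, Tempered (π i)) →
    (∀ (i : Fin r) (μ : Fin (n i) → ℤ) (m : Wt (n i) →₀ ℤ), IsIrr 0 μ m → μ ≠ 0 →
      (∀ j, μ j ≤ R) → PoleOrder (π i) m 1 0) →
    (∀ (μ : (i : Fin r) → Fin (n i) → ℤ) (m : (i : Fin r) → Wt (n i) →₀ ℤ), Irrs μ m →
      (∀ i j, μ i j ≤ R) → MeroAtP π m 1) →
    ∃ ρ : Fin r → Fin r, (∀ i, ρ (ρ i) = ρ i ∧ n (ρ i) = n i) ∧
      (∀ i j, i ≠ j → ∀ m : (i : Fin r) → Wt (n i) →₀ ℤ, Irrs (stdWt n i j) m →
        PoleOrderP π m 1 (if ρ i = ρ j then 1 else 0)) ∧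
      (∀ i j, ρ i = ρ j → ∀ k, Summable fun p : Pr =>
        ‖(cpol (π i p)).coeff k - (cpol (π j p)).coeff k‖ ^ 2 / ((p : ℕ) : ℝ)) ∧
      (∀ (μ : (i : Fin r) → Fin (n i) → ℤ) (m : (i : Fin r) → Wt (n i) →₀ ℤ), Irrs μ m →
        (∀ i j, μ i j ≤ M) →
        PoleOrderP π m 1 (∏ l, mult1 (∏ i with ρ i = l, crs (n l) (m i)))) ∧
      ∀ (k : Fin r → ℤ) (μ : (i : Fin r) → Fin (n i) → ℤ) (m : (i : Fin r) → Wt (n i) →₀ ℤ),
        (∀ i, IsIrr (k i) (μ i) (m i)) → (∀ i a, 2 * μ i a - k i ≤ M) →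
        (∃ i, ¬ ∀ a, 2 * μ i a = k i) →
        (∀ i j, i ≠ j → ρ i = ρ j → (∀ a, 2 * μ i a = k i) ∨ ∀ a, 2 * μ j a = k j) →
        ∀ e : Pr → ℂ, (∀ p, ‖e p‖ = 1) → MeroAtT π m e → PoleOrderT π m e 0 := by
  obtain ⟨R, hR⟩ := fin_law hn (2 * M)
  refine ⟨R, fun π hπ hST hM => ?_⟩
  obtain ⟨ρ, h1, h2, h3, h4⟩ := hR π hπ hST hM
  refine ⟨ρ, h1, h2, h3, fun μ m hm hμ => h4 μ m hm fun i j => (hμ i j).trans ?_,
    fun k μ m hm hk hne hinj e he hMe =>
      level_U hπ (fun i => (h1 i).2) h4 hm hk hinj hne he hMe⟩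
  push_cast
  omega

end order

end Pool.Agent.EEAP
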